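import Mathlib

/-!
Helper file for `MP_303525_mp`: Dirichlet problem for `-u'' + V u = E u` on `[a, b]` with two explicit
solutions, and nonpositive energies.
-/

set_option autoImplicit false

namespace Q235.FourTerm

open Real Set Filter Topology

/-- a pair `(u, u')` solving `u'' = (V - E) u` on `[a, b]` -/
def Sol (V : ℝ → ℝ) (a b E : ℝ) (u v : ℝ → ℝ) : Prop :=
  (∀ x ∈ Icc a b, HasDerivWithinAt u (v x) (Icc a b) x) ∧
  (∀ x ∈ Icc a b, HasDerivWithinAt v ((V x - E) * u x) (Icc a b) x)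

theorem const_of_deriv_zero {a b : ℝ} {f : ℝ → ℝ}
    (h : ∀ x ∈ Icc a b, HasDerivWithinAt f 0 (Icc a b) x) : ∀ x ∈ Icc a b, f x = f a := by
  have hc : ContinuousOn f (Icc a b) := fun x hx => (h x hx).continuousWithinAt
  apply constant_of_has_deriv_right_zero hc
  intro x hx
  have := h x ⟨hx.1, hx.2.le⟩
  exact (this.mono_of_mem_nhdsWithin (Icc_mem_nhdsGE_of_mem ⟨hx.1, hx.2⟩))

/-- Wronskians of two solutions are constant. -/
theorem wronskian {V : ℝ → ℝ} {a b E : ℝ} {u v w z : ℝ → ℝ} (h1 : Sol V a b E u v)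
    (h2 : Sol V a b E w z) : ∀ x ∈ Icc a b, u x * z x - v x * w x = u a * z a - v a * w a := by
  apply const_of_deriv_zero (f := fun x => u x * z x - v x * w x)
  intro x hx
  have := ((h1.1 x hx).mul (h2.2 x hx)).sub ((h1.2 x hx).mul (h2.1 x hx))
  refine this.congr_deriv ?_
  ring

/-- `E` is an eigenvalue iff the determinant of the boundary values vanishes. -/
theorem eig_iff {V : ℝ → ℝ} {a b E : ℝ} (hab : a < b) {w₁ z₁ w₂ z₂ : ℝ → ℝ}
    (h1 : Sol V a b E w₁ z₁) (h2 : Sol V a b E w₂ z₂) (hW : w₁ a * z₂ a - z₁ a * w₂ a ≠ 0) :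
    (∃ u v : ℝ → ℝ, Sol V a b E u v ∧ u a = 0 ∧ u b = 0 ∧ ∃ x ∈ Icc a b, u x ≠ 0) ↔
      w₁ a * w₂ b - w₂ a * w₁ b = 0 := by
  have ha : a ∈ Icc a b := ⟨le_rfl, hab.le⟩
  have hb : b ∈ Icc a b := ⟨hab.le, le_rfl⟩
  set D := w₁ a * z₂ a - z₁ a * w₂ a with hD
  constructor
  · rintro ⟨u, v, hu, hua, hub, x, hx, hux⟩
    have k1 := wronskian h1 h2
    have k2 := wronskian hu h2
    have k3 := wronskian hu h1
    set P := u a * z₂ a - v a * w₂ a with hP
    set Q := u a * z₁ a - v a * w₁ a with hQ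
    have key : ∀ y ∈ Icc a b, u y * D = w₁ y * P - w₂ y * Q := by
      intro y hy
      rw [hD, ← k1 y hy, ← k2 y hy, ← k3 y hy]
      ring
    have e1 := key a ha
    have e2 := key b hb
    rw [hua, zero_mul] at e1
    rw [hub, zero_mul] at e2
    have hPQ : P ≠ 0 ∨ Q ≠ 0 := by
      by_contra hcon
      push Not at hcon
      have := key x hx
      rw [hcon.1, hcon.2] at this
      simp at this
      rcases this with h | h
      · exact hux h
      · exact hW h
    rcases hPQ with h | h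
    · have : (w₁ a * w₂ b - w₂ a * w₁ b) * P = 0 := by linear_combination (-w₂ b) * e1 + w₂ a * e2
      exact (mul_eq_zero.1 this).resolve_right h
    · have : (w₁ a * w₂ b - w₂ a * w₁ b) * Q = 0 := by linear_combination (-w₁ b) * e1 + w₁ a * e2
      exact (mul_eq_zero.1 this).resolve_right h
  · intro hdet
    have hnz : w₁ a ≠ 0 ∨ w₂ a ≠ 0 := by
      by_contra hcon
      push Not at hcon
      apply hW
      rw [hD, hcon.1, hcon.2]
      ring
    refine ⟨fun x => w₂ a * w₁ x - w₁ a * w₂ x, fun x => w₂ a * z₁ x - w₁ a * z₂ x,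
      ⟨fun x hx => ((h1.1 x hx).const_mul _).sub ((h2.1 x hx).const_mul _),
        fun x hx => (((h1.2 x hx).const_mul _).sub ((h2.2 x hx).const_mul _)).congr_deriv ?_⟩,
      ?_, ?_, ?_⟩
    · ring
    · ring
    · linarith
    · by_contra hcon
      push Not at hcon
      have hder : ∀ x ∈ Icc a b, HasDerivWithinAt (fun x => w₂ a * w₁ x - w₁ a * w₂ x) 0
          (Icc a b) x := by
        intro x hx
        refine (hasDerivWithinAt_const x (Icc a b) (0 : ℝ)).congr_of_mem (fun y hy => hcon y hy) hx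
      have hd := ((h1.1 a ha).const_mul (w₂ a)).sub ((h2.1 a ha).const_mul (w₁ a))
      have hu := (uniqueDiffOn_Icc hab a ha).eq_deriv _ (hder a ha) hd
      apply hW
      rw [hD]
      linarith

/-- There are no eigenvalues `E ≤ 0` if `V > 0`. -/
theorem no_nonpos {V : ℝ → ℝ} {a b E : ℝ} (hab : a < b) (hV : ∀ x ∈ Icc a b, 0 < V x) (hE : E ≤ 0)
    {u v : ℝ → ℝ} (h : Sol V a b E u v) (ha : u a = 0) (hb : u b = 0) : ∀ x ∈ Icc a b, u x = 0 := by
  have hder : ∀ x ∈ Icc a b, HasDerivWithinAt (fun x => u x * v x)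
      (v x * v x + u x * ((V x - E) * u x)) (Icc a b) x := by
    intro x hx
    exact (h.1 x hx).mul (h.2 x hx)
  have hcont : ContinuousOn (fun x => u x * v x) (Icc a b) :=
    fun x hx => (hder x hx).continuousWithinAt
  have hpos : ∀ x ∈ Icc a b, 0 ≤ v x * v x + u x * ((V x - E) * u x) := by
    intro x hx
    have h1 : 0 < V x - E := by linarith [hV x hx]
    have h2 := mul_self_nonneg (v x)
    have h3 := mul_nonneg h1.le (mul_self_nonneg (u x))
    nlinarith
  have hmono : MonotoneOn (fun x => u x * v x) (Icc a b) := by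
    apply monotoneOn_of_deriv_nonneg (convex_Icc a b) hcont
    · intro x hx
      rw [interior_Icc] at hx
      exact ((hder x ⟨hx.1.le, hx.2.le⟩).hasDerivAt
        (Icc_mem_nhds hx.1 hx.2)).differentiableAt.differentiableWithinAt
    · intro x hx
      rw [interior_Icc] at hx
      rw [((hder x ⟨hx.1.le, hx.2.le⟩).hasDerivAt (Icc_mem_nhds hx.1 hx.2)).deriv]
      exact hpos x ⟨hx.1.le, hx.2.le⟩
  have hz : ∀ x ∈ Icc a b, u x * v x = 0 := by
    intro x hx
    have h1 := hmono ⟨le_rfl, hab.le⟩ hx hx.1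
    have h2 := hmono hx ⟨hab.le, le_rfl⟩ hx.2
    simp only [ha, hb, zero_mul] at h1 h2
    exact le_antisymm h2 h1
  intro x hx
  have h1 : HasDerivWithinAt (fun x => u x * v x) 0 (Icc a b) x :=
    (hasDerivWithinAt_const x (Icc a b) (0 : ℝ)).congr_of_mem (fun y hy => hz y hy) hx
  have h2 := (uniqueDiffOn_Icc hab x hx).eq_deriv _ h1 (hder x hx)
  have h3 : 0 < V x - E := by linarith [hV x hx]
  have h4 := mul_self_nonneg (v x)
  by_contra hne
  have h5 : 0 < u x * u x := mul_self_pos.2 hne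
  have h6 := mul_pos h3 h5
  nlinarith

end Q235.FourTerm
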