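import Pool.Agent.Q235.FourTermA

/-!
Helper file for `MP_303525_mp`: the potential `2 κ² / sinh² (κ (x - a) + 1)`.
-/

set_option autoImplicit false

namespace Q235.FourTerm

open Real Set Filter Topology

/-- `coth` -/
noncomputable def ct (z : ℝ) : ℝ := cosh z / sinh z

noncomputable def W1 (k y : ℝ) : ℝ := ct (y + 1) * sin (k * y) - k * cos (k * y)
noncomputable def W2 (k y : ℝ) : ℝ := ct (y + 1) * cos (k * y) + k * sin (k * y)
noncomputable def Z1 (k y : ℝ) : ℝ :=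
  -(1 / sinh (y + 1) ^ 2) * sin (k * y) + k * ct (y + 1) * cos (k * y) + k ^ 2 * sin (k * y)
noncomputable def Z2 (k y : ℝ) : ℝ :=
  -(1 / sinh (y + 1) ^ 2) * cos (k * y) - k * ct (y + 1) * sin (k * y) + k ^ 2 * cos (k * y)

theorem hasDerivAt_ct {z : ℝ} (hz : 0 < z) : HasDerivAt ct (-(1 / sinh z ^ 2)) z := by
  have hs : sinh z ≠ 0 := (sinh_pos_iff.2 hz).ne'
  have h := (hasDerivAt_cosh z).div (hasDerivAt_sinh z) hs
  refine h.congr_deriv ?_
  have := cosh_sq z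
  field_simp
  nlinarith

theorem hasDerivAt_ct' {y : ℝ} (hy : 0 ≤ y) :
    HasDerivAt (fun y => ct (y + 1)) (-(1 / sinh (y + 1) ^ 2)) y := by
  exact HasDerivAt.comp_add_const y 1 (hasDerivAt_ct (z := y + 1) (by linarith))

theorem hasDerivAt_is {y : ℝ} (hy : 0 ≤ y) :
    HasDerivAt (fun y => -(1 / sinh (y + 1) ^ 2)) (2 * ct (y + 1) / sinh (y + 1) ^ 2) y := by
  have hs : sinh (y + 1) ≠ 0 := (sinh_pos_iff.2 (by linarith)).ne'
  have h0 : HasDerivAt (fun y => sinh (y + 1)) (cosh (y + 1)) y :=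
    HasDerivAt.comp_add_const y 1 (hasDerivAt_sinh (y + 1))
  have h1 : HasDerivAt (fun y => sinh (y + 1) ^ 2) (2 * sinh (y + 1) * cosh (y + 1)) y := by
    refine (h0.fun_pow 2).congr_deriv ?_
    simp
  have h2 := (h1.inv (pow_ne_zero 2 hs)).neg
  have e : (fun y => -(1 / sinh (y + 1) ^ 2)) = -(fun y => sinh (y + 1) ^ 2)⁻¹ := by
    funext y; simp
  rw [e]
  refine h2.congr_deriv ?_
  unfold ct
  field_simp

theorem hasDerivAt_sin' (k y : ℝ) : HasDerivAt (fun y => sin (k * y)) (k * cos (k * y)) y := by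
  have := (hasDerivAt_sin (k * y)).comp y ((hasDerivAt_id y).const_mul k)
  refine this.congr_deriv ?_
  simp [mul_comm]

theorem hasDerivAt_cos' (k y : ℝ) : HasDerivAt (fun y => cos (k * y)) (-(k * sin (k * y))) y := by
  have := (hasDerivAt_cos (k * y)).comp y ((hasDerivAt_id y).const_mul k)
  refine this.congr_deriv ?_
  simp [mul_comm]

theorem hasDerivAt_W1 (k : ℝ) {y : ℝ} (hy : 0 ≤ y) : HasDerivAt (W1 k) (Z1 k y) y := by
  have h := ((hasDerivAt_ct' hy).mul (hasDerivAt_sin' k y)).sub ((hasDerivAt_cos' k y).const_mul k)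
  refine h.congr_deriv ?_
  unfold Z1
  ring

theorem hasDerivAt_W2 (k : ℝ) {y : ℝ} (hy : 0 ≤ y) : HasDerivAt (W2 k) (Z2 k y) y := by
  have h := ((hasDerivAt_ct' hy).mul (hasDerivAt_cos' k y)).add ((hasDerivAt_sin' k y).const_mul k)
  refine h.congr_deriv ?_
  unfold Z2
  ring

theorem hasDerivAt_Z1 (k : ℝ) {y : ℝ} (hy : 0 ≤ y) :
    HasDerivAt (Z1 k) ((2 / sinh (y + 1) ^ 2 - k ^ 2) * W1 k y) y := by
  have h := (((hasDerivAt_is hy).mul (hasDerivAt_sin' k y)).add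
    (((hasDerivAt_ct' hy).const_mul k).mul (hasDerivAt_cos' k y))).add
    ((hasDerivAt_sin' k y).const_mul (k ^ 2))
  refine h.congr_deriv ?_
  unfold W1
  ring

theorem hasDerivAt_Z2 (k : ℝ) {y : ℝ} (hy : 0 ≤ y) :
    HasDerivAt (Z2 k) ((2 / sinh (y + 1) ^ 2 - k ^ 2) * W2 k y) y := by
  have h := (((hasDerivAt_is hy).mul (hasDerivAt_cos' k y)).sub
    (((hasDerivAt_ct' hy).const_mul k).mul (hasDerivAt_sin' k y))).add
    ((hasDerivAt_cos' k y).const_mul (k ^ 2))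
  refine h.congr_deriv ?_
  unfold W2
  ring

/-- the potential -/
noncomputable def pot (κ a x : ℝ) : ℝ := 2 * κ ^ 2 / sinh (κ * (x - a) + 1) ^ 2

theorem sol_of {κ a b k : ℝ} (hκ : 0 < κ) {W Z : ℝ → ℝ}
    (hW : ∀ y, 0 ≤ y → HasDerivAt W (Z y) y)
    (hZ : ∀ y, 0 ≤ y → HasDerivAt Z ((2 / sinh (y + 1) ^ 2 - k ^ 2) * W y) y) :
    Sol (pot κ a) a b ((κ * k) ^ 2) (fun x => W (κ * (x - a))) (fun x => κ * Z (κ * (x - a))) := by
  have hin : ∀ x : ℝ, HasDerivAt (fun x => κ * (x - a)) κ x := by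
    intro x
    simpa using ((hasDerivAt_id x).sub_const a).const_mul κ
  constructor
  · intro x hx
    have h0 : 0 ≤ κ * (x - a) := mul_nonneg hκ.le (by linarith [hx.1])
    have := (hW _ h0).comp x (hin x)
    refine (this.congr_deriv ?_).hasDerivWithinAt
    ring
  · intro x hx
    have h0 : 0 ≤ κ * (x - a) := mul_nonneg hκ.le (by linarith [hx.1])
    have := ((hZ _ h0).comp x (hin x)).const_mul κ
    refine (this.congr_deriv ?_).hasDerivWithinAt
    unfold pot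
    ring

/-- the phase function -/
noncomputable def F (L k : ℝ) : ℝ := k * L - arctan (k * tanh (L + 1)) + arctan (k * tanh 1)

theorem tanh_pos' {z : ℝ} (hz : 0 < z) : 0 < tanh z := by
  rw [tanh_eq_sinh_div_cosh]
  exact div_pos (sinh_pos_iff.2 hz) (cosh_pos z)

theorem tanh_lt_one' (z : ℝ) : tanh z < 1 := by
  rw [tanh_eq_sinh_div_cosh, div_lt_one (cosh_pos z)]
  exact sinh_lt_cosh z

theorem ct_eq {z : ℝ} : ct z = 1 / tanh z := by
  rw [tanh_eq_sinh_div_cosh]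
  unfold ct
  simp

/-- eigenvalue condition -/
theorem det_eq {L k : ℝ} (hL : 0 < L) :
    (W1 k 0 * W2 k L - W2 k 0 * W1 k L = 0) ↔ sin (F L k) = 0 := by
  have hT := tanh_pos' (z := L + 1) (by linarith)
  have ht := tanh_pos' (z := 1) (by norm_num)
  have e0 : W1 k 0 = -k := by simp [W1]
  have e1 : W2 k 0 = 1 / tanh 1 := by simp [W2, ct_eq]
  rw [e0, e1]
  unfold W1 W2 F
  rw [ct_eq]
  set T := tanh (L + 1) with hTd
  set t := tanh 1 with htd
  have h : sin (k * L - arctan (k * T) + arctan (k * t)) =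
      -(t * T) * (1 / √(1 + (k * T) ^ 2)) * (1 / √(1 + (k * t) ^ 2)) *
      (-k * (1 / T * cos (k * L) + k * sin (k * L)) -
        1 / t * (1 / T * sin (k * L) - k * cos (k * L))) := by
    rw [sin_add, sin_sub, cos_sub, sin_arctan, cos_arctan, sin_arctan, cos_arctan]
    have h1 : √(1 + (k * T) ^ 2) ≠ 0 := by positivity
    have h2 : √(1 + (k * t) ^ 2) ≠ 0 := by positivity
    field_simp
    ring
  rw [h]
  have h1 : (1 / √(1 + (k * T) ^ 2)) ≠ 0 := by positivity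
  have h2 : (1 / √(1 + (k * t) ^ 2)) ≠ 0 := by positivity
  have h3 : -(t * T) ≠ 0 := neg_ne_zero.2 (by positivity)
  constructor
  · intro h0
    rw [h0, mul_zero]
  · intro h0
    exact (mul_eq_zero.1 h0).resolve_left (mul_ne_zero (mul_ne_zero h3 h1) h2)

theorem wr_ne {κ k : ℝ} (hκ : 0 < κ) (hk : 0 < k) :
    W1 k 0 * (κ * Z2 k 0) - κ * Z1 k 0 * W2 k 0 ≠ 0 := by
  have hs : sinh (1 : ℝ) ≠ 0 := (sinh_pos_iff.2 (by norm_num)).ne'
  have e : W1 k 0 * (κ * Z2 k 0) - κ * Z1 k 0 * W2 k 0 = -(κ * k * (1 + k ^ 2)) := by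
    unfold W1 W2 Z1 Z2 ct
    have := cosh_sq (1 : ℝ)
    simp only [mul_zero, zero_add, sin_zero, cos_zero]
    field_simp
    linear_combination (-k) * this
  rw [e]
  have : 0 < κ * k * (1 + k ^ 2) := by positivity
  intro h
  linarith

end Q235.FourTerm
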