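import Pool.Agent.Q235.FourTermB

/-!
Helper file for `MP_303525_mp`: the roots of the phase function and their asymptotics.
-/

set_option autoImplicit false

namespace Q235.FourTerm

open Real Set Filter Topology

theorem arctan_lip {x y : ℝ} (h : x ≤ y) : arctan y - arctan x ≤ y - x := by
  have hm : Monotone fun t : ℝ => t - arctan t := by
    apply monotone_of_deriv_nonneg
    · exact differentiable_id.sub differentiable_arctan
    · intro t
      have := (hasDerivAt_id t).sub (hasDerivAt_arctan t)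
      have e : deriv (fun t : ℝ => t - arctan t) t = 1 - 1 / (1 + t ^ 2) := this.deriv
      rw [e]
      have h1 : 1 / (1 + t ^ 2) ≤ 1 := by
        rw [div_le_one (by positivity)]
        nlinarith [sq_nonneg t]
      linarith
  have := hm h
  simp only at this
  linarith

theorem F_lower {L k k' : ℝ} (_hk : 0 ≤ k) (h : k ≤ k') :
    (k' - k) * (L - 1) ≤ F L k' - F L k := by
  unfold F
  have hT0 : 0 < tanh (1 : ℝ) := tanh_pos' (by norm_num)
  have hT1 := tanh_lt_one' (L + 1)
  have h1 : arctan (k' * tanh (L + 1)) - arctan (k * tanh (L + 1)) ≤ k' - k := by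
    rcases le_or_gt 0 (tanh (L + 1)) with h0 | h0
    · have h2 : k * tanh (L + 1) ≤ k' * tanh (L + 1) := mul_le_mul_of_nonneg_right h h0
      have h3 := arctan_lip h2
      have h4 : k' * tanh (L + 1) - k * tanh (L + 1) ≤ k' - k := by nlinarith
      linarith
    · have h2 : k' * tanh (L + 1) ≤ k * tanh (L + 1) := mul_le_mul_of_nonpos_right h h0.le
      have h3 := arctan_strictMono.monotone h2
      linarith
  have h2 : arctan (k * tanh 1) ≤ arctan (k' * tanh 1) :=
    arctan_strictMono.monotone (mul_le_mul_of_nonneg_right h hT0.le)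
  nlinarith

theorem F_zero (L : ℝ) : F L 0 = 0 := by simp [F]

theorem F_cont (L : ℝ) : Continuous (F L) := by
  unfold F
  exact ((continuous_id.mul continuous_const).sub
    (continuous_arctan.comp (continuous_id.mul continuous_const))).add
    (continuous_arctan.comp (continuous_id.mul continuous_const))

theorem exists_root {L : ℝ} (hL : 1 < L) (n : ℕ) :
    ∃ k : ℝ, 0 ≤ k ∧ F L k = n * π := by
  have hn : (0 : ℝ) ≤ n * π := by positivity
  have h1 : (n * π : ℝ) ≤ F L (n * π / (L - 1)) := by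
    have h0 : (0 : ℝ) ≤ n * π / (L - 1) := div_nonneg hn (by linarith)
    have := F_lower (L := L) le_rfl h0
    rw [F_zero, sub_zero, sub_zero, div_mul_cancel₀ _ (by linarith : L - 1 ≠ 0)] at this
    exact this
  have h0 : (0 : ℝ) ≤ n * π / (L - 1) := div_nonneg hn (by linarith)
  have := intermediate_value_Icc h0 (F_cont L).continuousOn
  rw [F_zero] at this
  obtain ⟨k, hk, hk2⟩ := this ⟨hn, h1⟩
  exact ⟨k, hk.1, hk2⟩

/-- the `n`-th root -/
noncomputable def root (L : ℝ) (n : ℕ) : ℝ :=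
  if h : 1 < L then Classical.choose (exists_root h n) else 0

theorem root_nonneg (L : ℝ) (n : ℕ) : 0 ≤ root L n := by
  unfold root
  split_ifs with h
  · exact (Classical.choose_spec (exists_root h n)).1
  · exact le_rfl

theorem F_root {L : ℝ} (h : 1 < L) (n : ℕ) : F L (root L n) = n * π := by
  unfold root
  rw [dif_pos h]
  exact (Classical.choose_spec (exists_root h n)).2

theorem F_strict {L k k' : ℝ} (hL : 1 < L) (hk : 0 ≤ k) (h : k < k') : F L k < F L k' := by
  have := F_lower (L := L) hk h.le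
  have h2 : 0 < (k' - k) * (L - 1) := mul_pos (by linarith) (by linarith)
  linarith

theorem F_lt_iff {L k k' : ℝ} (hL : 1 < L) (hk : 0 ≤ k) (hk' : 0 ≤ k') : F L k < F L k' ↔ k < k' := by
  constructor
  · intro h
    by_contra hcon
    push Not at hcon
    rcases hcon.eq_or_lt with h1 | h1
    · rw [h1] at h; exact lt_irrefl _ h
    · have := F_strict hL hk' h1
      linarith
  · exact F_strict hL hk

theorem F_inj {L k k' : ℝ} (hL : 1 < L) (hk : 0 ≤ k) (hk' : 0 ≤ k') (h : F L k = F L k') :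
    k = k' := by
  rcases lt_trichotomy k k' with h1 | h1 | h1
  · have := F_strict hL hk h1
    linarith
  · exact h1
  · have := F_strict hL hk' h1
    linarith

theorem root_lt {L : ℝ} (hL : 1 < L) {m n : ℕ} (h : m < n) : root L m < root L n := by
  rw [← F_lt_iff hL (root_nonneg _ _) (root_nonneg _ _), F_root hL, F_root hL]
  have : (m : ℝ) < n := by exact_mod_cast h
  exact mul_lt_mul_of_pos_right this pi_pos

theorem root_pos {L : ℝ} (hL : 1 < L) {n : ℕ} (h : 1 ≤ n) : 0 < root L n :=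
  lt_of_le_of_lt (root_nonneg L 0) (root_lt hL (by omega))

theorem root_le {L : ℝ} (hL : 1 < L) (n : ℕ) : root L n ≤ n * π / (L - 1) := by
  have h := F_lower (L := L) le_rfl (root_nonneg L n)
  rw [F_zero, sub_zero, sub_zero, F_root hL] at h
  rwa [le_div_iff₀ (by linarith)]

/-- positive roots of `sin (F L k)` -/
theorem sin_zero_iff {L k : ℝ} (hL : 1 < L) (hk : 0 < k) :
    sin (F L k) = 0 ↔ ∃ n : ℕ, 1 ≤ n ∧ root L n = k := by
  rw [sin_eq_zero_iff]
  constructor
  · rintro ⟨m, hm⟩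
    have hF : 0 < F L k := by
      have := F_strict hL le_rfl hk
      rwa [F_zero] at this
    rw [← hm] at hF
    have hm0 : 0 < m := by
      by_contra hcon
      push Not at hcon
      have : (m : ℝ) ≤ 0 := by exact_mod_cast hcon
      nlinarith [pi_pos]
    obtain ⟨n, rfl⟩ := Int.eq_ofNat_of_zero_le hm0.le
    refine ⟨n, by omega, ?_⟩
    apply F_inj hL (root_nonneg _ _) hk.le
    rw [F_root hL, ← hm]
    simp
  · rintro ⟨n, _, rfl⟩
    exact ⟨n, by rw [F_root hL]; simp⟩

/-! ### Asymptotics as `L → ∞` -/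

theorem arctan_ge {x : ℝ} (hx : 0 ≤ x) : x - x ^ 3 / 3 ≤ arctan x := by
  have hm : MonotoneOn (fun t : ℝ => arctan t - (t - t ^ 3 / 3)) (Ici 0) := by
    apply monotoneOn_of_deriv_nonneg (convex_Ici 0)
    · fun_prop
    · exact (differentiable_arctan.sub (by fun_prop)).differentiableOn
    · intro t _
      have h1 := ((hasDerivAt_arctan t).sub
        ((hasDerivAt_id t).sub ((hasDerivAt_pow 3 t).div_const 3)))
      have e : deriv (fun t : ℝ => arctan t - (t - t ^ 3 / 3)) t =
          1 / (1 + t ^ 2) - (1 - (3 : ℕ) * t ^ (3 - 1) / 3) := h1.deriv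
      rw [e]
      have h2 : 1 / (1 + t ^ 2) - (1 - (3 : ℕ) * t ^ (3 - 1) / 3) = t ^ 4 / (1 + t ^ 2) := by
        have : (1 + t ^ 2) ≠ 0 := by positivity
        field_simp
        push_cast
        ring
      rw [h2]
      positivity
  have := hm (show (0 : ℝ) ∈ Ici 0 from self_mem_Ici) (show x ∈ Ici 0 from hx) hx
  simp at this
  linarith

theorem arctan_le5 {x : ℝ} (hx : 0 ≤ x) : arctan x ≤ x - x ^ 3 / 3 + x ^ 5 / 5 := by
  have hm : MonotoneOn (fun t : ℝ => (t - t ^ 3 / 3 + t ^ 5 / 5) - arctan t) (Ici 0) := by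
    apply monotoneOn_of_deriv_nonneg (convex_Ici 0)
    · fun_prop
    · exact ((by fun_prop : Differentiable ℝ fun t : ℝ => t - t ^ 3 / 3 + t ^ 5 / 5).sub
        differentiable_arctan).differentiableOn
    · intro t _
      have h1 := ((((hasDerivAt_id t).sub ((hasDerivAt_pow 3 t).div_const 3))).add
        ((hasDerivAt_pow 5 t).div_const 5)).sub (hasDerivAt_arctan t)
      have e : deriv (fun t : ℝ => (t - t ^ 3 / 3 + t ^ 5 / 5) - arctan t) t =
          (1 - (3 : ℕ) * t ^ (3 - 1) / 3 + (5 : ℕ) * t ^ (5 - 1) / 5) - 1 / (1 + t ^ 2) := h1.deriv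
      rw [e]
      have h2 : (1 - (3 : ℕ) * t ^ (3 - 1) / 3 + (5 : ℕ) * t ^ (5 - 1) / 5) - 1 / (1 + t ^ 2) =
          t ^ 6 / (1 + t ^ 2) := by
        have : (1 + t ^ 2) ≠ 0 := by positivity
        field_simp
        push_cast
        ring
      rw [h2]
      positivity
  have := hm (show (0 : ℝ) ∈ Ici 0 from self_mem_Ici) (show x ∈ Ici 0 from hx) hx
  simp at this
  linarith

theorem tendsto_tanh_one : Tendsto (fun L : ℝ => tanh (L + 1)) atTop (𝓝 1) := by
  have h1 : ∀ z : ℝ, 1 - exp (-z) ≤ tanh z := by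
    intro z
    rw [tanh_eq_sinh_div_cosh, le_div_iff₀ (cosh_pos z)]
    have h2 : cosh z - sinh z = exp (-z) := cosh_sub_sinh z
    have h3 := one_le_cosh z
    have h4 := exp_pos (-z)
    nlinarith
  have h2 : Tendsto (fun L : ℝ => 1 - exp (-(L + 1))) atTop (𝓝 1) := by
    have : Tendsto (fun L : ℝ => exp (-(L + 1))) atTop (𝓝 0) :=
      tendsto_exp_neg_atTop_nhds_zero.comp (tendsto_atTop_add_const_right _ 1 tendsto_id)
    simpa using this.const_sub 1
  exact tendsto_of_tendsto_of_tendsto_of_le_of_le h2 tendsto_const_nhds (fun L => h1 _)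
    (fun L => (tanh_lt_one' _).le)

theorem root_tendsto (n : ℕ) : Tendsto (fun L => root L n) atTop (𝓝 0) := by
  have h1 : Tendsto (fun L : ℝ => (n * π) / (L - 1)) atTop (𝓝 0) :=
    tendsto_const_nhds.div_atTop (tendsto_atTop_add_const_right _ (-1) tendsto_id)
  refine tendsto_of_tendsto_of_tendsto_of_le_of_le' tendsto_const_nhds h1
    (Eventually.of_forall fun L => root_nonneg _ _) ?_
  filter_upwards [eventually_gt_atTop 1] with L hL
  exact root_le hL n

/-- effective length -/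
noncomputable def M (L : ℝ) : ℝ := L - (tanh (L + 1) - tanh 1)

theorem M_atTop : Tendsto M atTop atTop := by
  have : Tendsto (fun L : ℝ => L + (-1)) atTop atTop :=
    tendsto_atTop_add_const_right _ (-1) tendsto_id
  refine tendsto_atTop_mono (fun L => ?_) this
  unfold M
  have := tanh_lt_one' (L + 1)
  have h2 := tanh_pos' (z := 1) (by norm_num)
  linarith

/-- `g x = arctan x - x`, cubic asymptotics -/
theorem cubic_bounds {k s : ℝ} (hk : 0 ≤ k) (hs : 0 ≤ s) (hs1 : s ≤ 1) :
    -(s ^ 3 / 3) * k ^ 3 ≤ arctan (k * s) - k * s ∧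
      arctan (k * s) - k * s ≤ -(s ^ 3 / 3) * k ^ 3 + k ^ 5 := by
  have h0 : 0 ≤ k * s := mul_nonneg hk hs
  have h1 := arctan_ge h0
  have h2 := arctan_le5 h0
  have h3 : (k * s) ^ 5 ≤ k ^ 5 := by
    apply pow_le_pow_left₀ h0
    nlinarith
  have h4 : 0 ≤ k ^ 5 := by positivity
  constructor
  · nlinarith
  · nlinarith

theorem key_limit (n : ℕ) (hn : 1 ≤ n) :
    Tendsto (fun L => (root L n ^ 2 / n ^ 2 - π ^ 2 / M L ^ 2) * M L ^ 5) atTop
      (𝓝 (-(2 / 3) * (1 - tanh 1 ^ 3) * π ^ 4 * n ^ 2)) := by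
  have hn0 : (n : ℝ) ≠ 0 := by
    have : 0 < n := hn
    positivity
  -- q L = (M κ - n π) / κ ^ 3
  let q : ℝ → ℝ := fun L => (root L n * M L - n * π) / root L n ^ 3
  have hq : Tendsto q atTop (𝓝 (-(1 - tanh 1 ^ 3) / 3)) := by
    have hb : ∀ᶠ L in atTop, -((tanh (L + 1)) ^ 3 / 3) + tanh 1 ^ 3 / 3 - root L n ^ 2 ≤ q L ∧
        q L ≤ -((tanh (L + 1)) ^ 3 / 3) + tanh 1 ^ 3 / 3 + root L n ^ 2 := by
      filter_upwards [eventually_gt_atTop 1] with L hL
      have hk := root_pos hL hn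
      have hF := F_root hL n
      have hT := tanh_pos' (z := L + 1) (by linarith)
      have ht := tanh_pos' (z := 1) (by norm_num)
      have c1 := cubic_bounds hk.le hT.le (tanh_lt_one' _).le
      have c2 := cubic_bounds hk.le ht.le (tanh_lt_one' _).le
      have e : root L n * M L - n * π =
          (arctan (root L n * tanh (L + 1)) - root L n * tanh (L + 1)) -
          (arctan (root L n * tanh 1) - root L n * tanh 1) := by
        rw [← hF]
        unfold F M
        ring
      have hk3 : 0 < root L n ^ 3 := by positivity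
      simp only [q]
      rw [le_div_iff₀ hk3, div_le_iff₀ hk3, e]
      constructor
      · nlinarith [c1.1, c2.2]
      · nlinarith [c1.2, c2.1]
    have hT := tendsto_tanh_one
    have hr := root_tendsto n
    have l1 : Tendsto (fun L => -((tanh (L + 1)) ^ 3 / 3) + tanh 1 ^ 3 / 3 - root L n ^ 2) atTop
        (𝓝 (-(1 - tanh 1 ^ 3) / 3)) := by
      have := (((hT.pow 3).div_const 3).neg.add_const (tanh 1 ^ 3 / 3)).sub (hr.pow 2)
      convert this using 2
      ring
    have l2 : Tendsto (fun L => -((tanh (L + 1)) ^ 3 / 3) + tanh 1 ^ 3 / 3 + root L n ^ 2) atTop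
        (𝓝 (-(1 - tanh 1 ^ 3) / 3)) := by
      have := (((hT.pow 3).div_const 3).neg.add_const (tanh 1 ^ 3 / 3)).add (hr.pow 2)
      convert this using 2
      ring
    exact tendsto_of_tendsto_of_tendsto_of_le_of_le' l1 l2 (hb.mono fun _ h => h.1)
      (hb.mono fun _ h => h.2)
  have hKM : Tendsto (fun L => root L n * M L) atTop (𝓝 (n * π)) := by
    have h1 : Tendsto (fun L => q L * root L n ^ 3 + n * π) atTop (𝓝 (n * π)) := by
      have := (hq.mul ((root_tendsto n).pow 3)).add_const (n * π)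
      convert this using 2
      simp
    refine h1.congr' ?_
    filter_upwards [eventually_gt_atTop 1] with L hL
    have hk := root_pos hL hn
    simp only [q]
    rw [div_mul_cancel₀ _ (by positivity)]
    ring
  have hfin : Tendsto (fun L => q L * (root L n * M L) ^ 3 * (root L n * M L + n * π) / n ^ 2) atTop
      (𝓝 ((-(1 - tanh 1 ^ 3) / 3) * (n * π) ^ 3 * (n * π + n * π) / n ^ 2)) :=
    (((hq.mul (hKM.pow 3)).mul (hKM.add_const (n * π))).div_const _)
  have e : (-(1 - tanh 1 ^ 3) / 3) * (n * π) ^ 3 * (n * π + n * π) / (n : ℝ) ^ 2 =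
      -(2 / 3) * (1 - tanh 1 ^ 3) * π ^ 4 * n ^ 2 := by
    field_simp
    ring
  rw [e] at hfin
  refine hfin.congr' ?_
  filter_upwards [eventually_gt_atTop 1, M_atTop.eventually_gt_atTop 0] with L hL hM
  have hk := root_pos hL hn
  simp only [q]
  have hk0 : root L n ≠ 0 := hk.ne'
  have hM0 : M L ≠ 0 := hM.ne'
  field_simp
  ring

theorem violation (i : ℕ) (hi : 1 ≤ i) : ∃ L : ℝ, 1 < L ∧
    root L i ^ 2 / (i : ℝ) ^ 2 + root L (i + 3) ^ 2 / ((i : ℝ) + 3) ^ 2 <
      root L (i + 1) ^ 2 / ((i : ℝ) + 1) ^ 2 + root L (i + 2) ^ 2 / ((i : ℝ) + 2) ^ 2 := by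
  have h0 := key_limit i hi
  have h1 := key_limit (i + 1) (by omega)
  have h2 := key_limit (i + 2) (by omega)
  have h3 := key_limit (i + 3) (by omega)
  have h := ((h0.add h3).sub h1).sub h2
  have hlim : -(2 / 3) * (1 - tanh 1 ^ 3) * π ^ 4 * (i : ℝ) ^ 2 +
      -(2 / 3) * (1 - tanh 1 ^ 3) * π ^ 4 * ((i + 3 : ℕ) : ℝ) ^ 2 -
      -(2 / 3) * (1 - tanh 1 ^ 3) * π ^ 4 * ((i + 1 : ℕ) : ℝ) ^ 2 -
      -(2 / 3) * (1 - tanh 1 ^ 3) * π ^ 4 * ((i + 2 : ℕ) : ℝ) ^ 2 < 0 := by
    push_cast
    have ht := tanh_pos' (z := 1) (by norm_num)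
    have ht1 := tanh_lt_one' 1
    have hc : 0 < 1 - tanh 1 ^ 3 := by
      have : tanh (1 : ℝ) ^ 3 < 1 := pow_lt_one₀ ht.le ht1 (by norm_num)
      linarith
    have hp : 0 < (1 - tanh 1 ^ 3) * π ^ 4 := by positivity
    nlinarith
  have hev := h.eventually (gt_mem_nhds hlim)
  obtain ⟨L, hL, hM, hlt⟩ := ((eventually_gt_atTop 1).and
    ((M_atTop.eventually_gt_atTop 0).and hev)).exists
  refine ⟨L, hL, ?_⟩
  have h5 : 0 < M L ^ 5 := by positivity
  push_cast at hlt
  by_contra hcon
  push Not at hcon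
  have : 0 ≤ (root L i ^ 2 / (i : ℝ) ^ 2 + root L (i + 3) ^ 2 / ((i : ℝ) + 3) ^ 2 -
      (root L (i + 1) ^ 2 / ((i : ℝ) + 1) ^ 2 + root L (i + 2) ^ 2 / ((i : ℝ) + 2) ^ 2)) * M L ^ 5 :=
    mul_nonneg (by linarith) h5.le
  nlinarith

end Q235.FourTerm
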