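import Mathlib

/-!
# A label invariant operator on the binary tree with two labels: operator theory
-/

set_option autoImplicit false

open scoped ENNReal ComplexConjugate InnerProductSpace

namespace Q235.SubTree

/-- Words in two letters. -/
abbrev W := List Bool
/-- Square summable functions on words. -/
noncomputable abbrev HH := lp (fun _ : W => ℂ) 2

theorem two_pos' : 0 < (2 : ℝ≥0∞).toReal := by norm_num

theorem summable_sq (f : HH) : Summable fun v => ‖f v‖ ^ 2 := by
  have := (lp.memℓp f).summable two_pos'
  simpa using this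

theorem norm_sq (f : HH) : ‖f‖ ^ 2 = ∑' v, ‖f v‖ ^ 2 := by
  have := lp.norm_rpow_eq_tsum two_pos' f
  simpa using this

theorem memH {f : W → ℂ} (hf : Summable fun v => ‖f v‖ ^ 2) : Memℓp f 2 := by
  refine memℓp_gen ?_
  simpa using hf

theorem ext' {f g : HH} (h : ∀ v, f v = g v) : f = g := lp.ext (funext h)

/-- Build an element. -/
def mk (f : W → ℂ) (hf : Summable fun v => ‖f v‖ ^ 2) : HH := ⟨f, memH hf⟩

@[simp] theorem mk_apply (f : W → ℂ) (hf : Summable fun v => ‖f v‖ ^ 2) (v : W) :
    mk f hf v = f v := rfl

/-- Words are the empty word or a letter followed by a word. -/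
def eW : Unit ⊕ (W ⊕ W) ≃ W where
  toFun o := match o with
    | Sum.inl _ => []
    | Sum.inr (Sum.inl x) => true :: x
    | Sum.inr (Sum.inr x) => false :: x
  invFun x := match x with
    | [] => Sum.inl ()
    | true :: x => Sum.inr (Sum.inl x)
    | false :: x => Sum.inr (Sum.inr x)
  left_inv o := by rcases o with _ | x | x <;> rfl
  right_inv x := by rcases x with _ | ⟨_ | _, x⟩ <;> rfl

theorem cons_inj (b : Bool) : Function.Injective (fun x : W => b :: x) := by
  intro x y h
  simpa using h

theorem tsum_words {F : W → ℝ} (hF : Summable F) :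
    ∑' x, F x = F [] + (∑' x, F (true :: x) + ∑' x, F (false :: x)) := by
  have h1 : Summable (F ∘ eW) := eW.summable_iff.2 hF
  rw [← eW.tsum_eq F]
  have h2 : Summable fun x => F (true :: x) := hF.comp_injective (cons_inj true)
  have h3 : Summable fun x => F (false :: x) := hF.comp_injective (cons_inj false)
  have h4 : Summable (fun o : W ⊕ W => F (eW (Sum.inr o))) := h1.comp_injective Sum.inr_injective
  have e1 := Summable.tsum_sum (f := fun o => F (eW o)) ((hasSum_fintype _).summable) h4
  rw [e1, Summable.tsum_sum (f := fun o : W ⊕ W => F (eW (Sum.inr o))) h2 h3]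
  simp only [tsum_fintype, Finset.univ_unique, Finset.sum_singleton]
  rfl

/-- Restriction to the words with first letter `b`. -/
noncomputable def S (b : Bool) : HH →L[ℂ] HH :=
  LinearMap.mkContinuous
    { toFun := fun f => mk (fun x => f (b :: x)) ((summable_sq f).comp_injective (cons_inj b))
      map_add' := fun f g => ext' fun v => by simp
      map_smul' := fun c f => ext' fun v => by simp }
    1 (fun f => by
      have h1 := norm_sq (mk (fun x => f (b :: x)) ((summable_sq f).comp_injective (cons_inj b)))
      have h2 := norm_sq f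
      have h3 : ∑' x, ‖f (b :: x)‖ ^ 2 ≤ ∑' v, ‖f v‖ ^ 2 :=
        Summable.tsum_le_tsum_of_inj _ (cons_inj b) (fun _ _ => sq_nonneg _) (fun _ => le_rfl)
          ((summable_sq f).comp_injective (cons_inj b)) (summable_sq f)
      rw [one_mul]
      refine (sq_le_sq₀ (norm_nonneg _) (norm_nonneg _)).1 ?_
      rw [h2]
      exact h1.trans_le h3)

@[simp] theorem S_apply (b : Bool) (f : HH) (x : W) : S b f x = f (b :: x) := rfl

/-- The basic decomposition of the norm. -/
theorem norm_decomp (f : HH) : ‖f‖ ^ 2 = ‖f []‖ ^ 2 + (‖S true f‖ ^ 2 + ‖S false f‖ ^ 2) := by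
  rw [norm_sq f, tsum_words (summable_sq f), norm_sq (S true f), norm_sq (S false f)]
  rfl

/-- The vector of the root. -/
noncomputable def del (x : W) : HH := lp.single 2 x (1 : ℂ)

theorem del_apply (x y : W) : del x y = if y = x then 1 else 0 := by
  unfold del
  rw [lp.single_apply]
  by_cases h : y = x
  · subst h; simp
  · simp [h]

theorem inner_del (x : W) (f : HH) : ⟪del x, f⟫_ℂ = f x := by
  unfold del
  rw [lp.inner_single_left]
  simp

theorem S_del_nil (b : Bool) : S b (del []) = 0 := by
  refine ext' fun y => ?_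
  rw [S_apply, del_apply]
  simp

theorem S_del_cons (b c : Bool) (x : W) : S b (del (c :: x)) = if b = c then del x else 0 := by
  refine ext' fun y => ?_
  rw [S_apply, del_apply]
  by_cases h : b = c
  · subst h
    simp [del_apply]
  · simp [h]

/-- The adjoint of `S b`. -/
noncomputable def V (b : Bool) : HH →L[ℂ] HH := ContinuousLinearMap.adjoint (S b)

theorem V_apply_nil (b : Bool) (f : HH) : V b f [] = 0 := by
  rw [← inner_del, V, ContinuousLinearMap.adjoint_inner_right, S_del_nil, inner_zero_left]

theorem V_apply_cons (b c : Bool) (x : W) (f : HH) :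
    V b f (c :: x) = if b = c then f x else 0 := by
  rw [← inner_del, V, ContinuousLinearMap.adjoint_inner_right, S_del_cons]
  split_ifs
  · rw [inner_del]
  · rw [inner_zero_left]

theorem S_V (b c : Bool) (f : HH) : S b (V c f) = if b = c then f else 0 := by
  refine ext' fun x => ?_
  rw [S_apply, V_apply_cons]
  by_cases h : b = c
  · subst h; simp
  · simp [h, Ne.symm h]

/-- The label of a word when the empty word has label `j`. -/
def lab (j : Bool) : W → Bool
  | [] => j
  | b :: _ => b

/-- The coupling `h = √2`. -/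
noncomputable def wt (b : Bool) : ℝ := if b then Real.sqrt 2 else -Real.sqrt 2

theorem abs_wt (b : Bool) : |wt b| ≤ Real.sqrt 2 := by
  unfold wt
  have := Real.sqrt_nonneg 2
  split_ifs
  · rw [abs_of_nonneg this]
  · rw [abs_neg, abs_of_nonneg this]

theorem D_summable (j : Bool) (f : HH) : Summable fun v => ‖((wt (lab j v) : ℝ) : ℂ) * f v‖ ^ 2 := by
  refine Summable.of_nonneg_of_le (fun v => sq_nonneg _) (fun v => ?_)
    ((summable_sq f).mul_left (Real.sqrt 2 ^ 2))
  rw [norm_mul, mul_pow, Complex.norm_real, Real.norm_eq_abs]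
  exact mul_le_mul_of_nonneg_right (pow_le_pow_left₀ (abs_nonneg _) (abs_wt _) 2) (sq_nonneg _)

/-- Multiplication by the potential. -/
noncomputable def D (j : Bool) : HH →L[ℂ] HH :=
  LinearMap.mkContinuous
    { toFun := fun f => mk (fun v => ((wt (lab j v) : ℝ) : ℂ) * f v) (D_summable j f)
      map_add' := fun f g => ext' fun v => by simp [mul_add]
      map_smul' := fun c f => ext' fun v => by simp; ring }
    (Real.sqrt 2) (fun f => by
      have h1 := norm_sq (mk (fun v => ((wt (lab j v) : ℝ) : ℂ) * f v) (D_summable j f))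
      have h2 := norm_sq f
      have h3 : ∑' v, ‖(mk (fun v => ((wt (lab j v) : ℝ) : ℂ) * f v) (D_summable j f)) v‖ ^ 2
          ≤ ∑' v, (Real.sqrt 2) ^ 2 * ‖f v‖ ^ 2 := by
        refine Summable.tsum_le_tsum (fun v => ?_) (D_summable j f)
          ((summable_sq f).mul_left ((Real.sqrt 2) ^ 2))
        simp only [mk_apply]
        rw [norm_mul, mul_pow, Complex.norm_real, Real.norm_eq_abs]
        exact mul_le_mul_of_nonneg_right (pow_le_pow_left₀ (abs_nonneg _) (abs_wt _) 2)
          (sq_nonneg _)
      rw [tsum_mul_left, ← h2, ← h1, ← mul_pow] at h3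
      exact (sq_le_sq₀ (norm_nonneg _) (by positivity)).mp h3)

@[simp] theorem D_apply (j : Bool) (f : HH) (x : W) : D j f x = ((wt (lab j x) : ℝ) : ℂ) * f x := rfl

theorem D_sa (j : Bool) : IsSelfAdjoint (D j) := by
  rw [ContinuousLinearMap.isSelfAdjoint_iff_isSymmetric]
  intro f g
  change ⟪D j f, g⟫_ℂ = ⟪f, D j g⟫_ℂ
  rw [lp.inner_eq_tsum, lp.inner_eq_tsum]
  refine tsum_congr fun v => ?_
  rw [D_apply, D_apply, ← smul_eq_mul, ← smul_eq_mul (((wt (lab j v) : ℝ) : ℂ)) (g v),
    inner_smul_left, inner_smul_right]
  simp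

/-- The operator. -/
noncomputable def T (j : Bool) : HH →L[ℂ] HH :=
  (S true + V true) + (S false + V false) + D j

theorem T_sa (j : Bool) : IsSelfAdjoint (T j) := by
  unfold T
  refine IsSelfAdjoint.add (IsSelfAdjoint.add ?_ ?_) (D_sa j)
  · exact IsSelfAdjoint.add_star_self (S true)
  · exact IsSelfAdjoint.add_star_self (S false)

theorem T_apply (j : Bool) (f : HH) : T j f = (S true f + V true f) + (S false f + V false f) + D j f :=
  rfl

theorem T_nil (j : Bool) (f : HH) : T j f [] = f [true] + f [false] + (wt j : ℂ) * f [] := by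
  rw [T_apply]
  simp only [lp.coeFn_add, Pi.add_apply, S_apply, V_apply_nil, D_apply, lab]
  ring

theorem T_cons (j b : Bool) (x : W) (f : HH) :
    T j f (b :: x) = f (true :: b :: x) + f (false :: b :: x) + f x + (wt b : ℂ) * f (b :: x) := by
  rw [T_apply]
  simp only [lp.coeFn_add, Pi.add_apply, S_apply, V_apply_cons, D_apply, lab]
  cases b <;> simp <;> ring

end Q235.SubTree
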