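import Pool.Agent.Q235.SubTreeA

/-!
# A label invariant operator on the binary tree with two labels: the spectrum
-/

set_option autoImplicit false

open scoped ENNReal ComplexConjugate InnerProductSpace

namespace Q235.SubTree

/-- The edge of the spectrum. -/
noncomputable def gg : ℝ := 3 * Real.sqrt 6 / 2

theorem gg_pos : 0 < gg := by unfold gg; positivity

theorem gg_sq : gg ^ 2 = 27 / 2 := by
  unfold gg
  have : Real.sqrt 6 ^ 2 = 6 := Real.sq_sqrt (by norm_num)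
  rw [div_pow, mul_pow, this]
  norm_num

theorem inner_V (b : Bool) (f : HH) : ⟪f, V b f⟫_ℂ = ⟪S b f, f⟫_ℂ := by
  rw [V, ContinuousLinearMap.adjoint_inner_right]

theorem re_inner_SV (b : Bool) (f : HH) : (⟪f, S b f + V b f⟫_ℂ).re = 2 * (⟪f, S b f⟫_ℂ).re := by
  rw [inner_add_right, inner_V, ← inner_conj_symm (S b f) f, Complex.add_re, Complex.conj_re]
  ring

theorem re_inner_D (j : Bool) (f : HH) : (⟪f, D j f⟫_ℂ).re =
    wt j * ‖f []‖ ^ 2 + (wt true * ‖S true f‖ ^ 2 + wt false * ‖S false f‖ ^ 2) := by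
  have h1 : ∀ x, ⟪f x, D j f x⟫_ℂ = ((wt (lab j x) * ‖f x‖ ^ 2 : ℝ) : ℂ) := by
    intro x
    rw [D_apply, ← smul_eq_mul, inner_smul_right, inner_self_eq_norm_sq_to_K]
    push_cast
    rfl
  have hs : Summable fun x => ⟪f x, D j f x⟫_ℂ := lp.summable_inner f (D j f)
  have hs' : Summable fun x => wt (lab j x) * ‖f x‖ ^ 2 := by
    have := hs
    simp only [h1] at this
    exact Complex.summable_ofReal.1 this
  rw [lp.inner_eq_tsum]
  simp only [h1]
  rw [← Complex.ofReal_tsum, Complex.ofReal_re, tsum_words hs', norm_sq (S true f),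
    norm_sq (S false f), ← tsum_mul_left, ← tsum_mul_left]
  rfl

theorem two_mul_le_of (c x y : ℝ) (hc : 0 < c) : 2 * (x * y) ≤ c⁻¹ * x ^ 2 + c * y ^ 2 := by
  have h1 : 0 ≤ c⁻¹ * (x - c * y) ^ 2 := by positivity
  have h2 : c⁻¹ * (x - c * y) ^ 2 = c⁻¹ * x ^ 2 - 2 * (x * y) + c * y ^ 2 := by
    field_simp
    ring
  linarith

theorem abs_re_SV (b : Bool) (c : ℝ) (hc : 0 < c) (f : HH) :
    |2 * (⟪f, S b f⟫_ℂ).re| ≤ c⁻¹ * ‖f‖ ^ 2 + c * ‖S b f‖ ^ 2 := by
  rw [abs_mul, abs_two]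
  have h1 : |(⟪f, S b f⟫_ℂ).re| ≤ ‖f‖ * ‖S b f‖ :=
    (Complex.abs_re_le_norm _).trans (norm_inner_le_norm _ _)
  have h2 := two_mul_le_of c ‖f‖ ‖S b f‖ hc
  linarith

theorem sqrt26 : Real.sqrt 2 < Real.sqrt 6 := Real.sqrt_lt_sqrt (by norm_num) (by norm_num)

theorem form_bound (j : Bool) (f : HH) : |(⟪f, T j f⟫_ℂ).re| ≤ gg * ‖f‖ ^ 2 := by
  have h0 := norm_decomp f
  have h2 := Real.sqrt_nonneg 2
  have h26 := sqrt26
  have q2 : Real.sqrt 2 ^ 2 = 2 := Real.sq_sqrt (by norm_num)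
  have q6 : Real.sqrt 6 ^ 2 = 6 := Real.sq_sqrt (by norm_num)
  have hp : 0 < Real.sqrt 6 + Real.sqrt 2 := by linarith
  have hm : 0 < Real.sqrt 6 - Real.sqrt 2 := by linarith
  have hinv : (Real.sqrt 6 + Real.sqrt 2)⁻¹ + (Real.sqrt 6 - Real.sqrt 2)⁻¹ = Real.sqrt 6 / 2 := by
    field_simp
    nlinarith
  have e1 : (⟪f, T j f⟫_ℂ).re = 2 * (⟪f, S true f⟫_ℂ).re + 2 * (⟪f, S false f⟫_ℂ).re +
      (wt j * ‖f []‖ ^ 2 + (wt true * ‖S true f‖ ^ 2 + wt false * ‖S false f‖ ^ 2)) := by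
    rw [T_apply, inner_add_right, inner_add_right, Complex.add_re, Complex.add_re, re_inner_SV,
      re_inner_SV, re_inner_D]
  have wt1 : wt true = Real.sqrt 2 := rfl
  have wt2 : wt false = -Real.sqrt 2 := rfl
  have hj := abs_le.1 (abs_wt j)
  have hn : 0 ≤ ‖f []‖ ^ 2 := sq_nonneg _
  rw [abs_le]
  constructor
  · have a1 := (abs_le.1 (abs_re_SV true _ hp f)).1
    have a2 := (abs_le.1 (abs_re_SV false _ hm f)).1
    rw [e1, wt1, wt2]
    have : wt j * ‖f []‖ ^ 2 ≥ -Real.sqrt 6 * ‖f []‖ ^ 2 := by nlinarith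
    unfold gg
    have e2 : ((Real.sqrt 6 + Real.sqrt 2)⁻¹ + (Real.sqrt 6 - Real.sqrt 2)⁻¹) * ‖f‖ ^ 2 =
      Real.sqrt 6 / 2 * ‖f‖ ^ 2 := by rw [hinv]
    nlinarith
  · have a1 := (abs_le.1 (abs_re_SV true _ hm f)).2
    have a2 := (abs_le.1 (abs_re_SV false _ hp f)).2
    rw [e1, wt1, wt2]
    have : wt j * ‖f []‖ ^ 2 ≤ Real.sqrt 6 * ‖f []‖ ^ 2 := by nlinarith
    unfold gg
    have e2 : ((Real.sqrt 6 + Real.sqrt 2)⁻¹ + (Real.sqrt 6 - Real.sqrt 2)⁻¹) * ‖f‖ ^ 2 =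
      Real.sqrt 6 / 2 * ‖f‖ ^ 2 := by rw [hinv]
    nlinarith

theorem spec_bound (j : Bool) {E : ℝ} (hE : (E : ℂ) ∈ spectrum ℂ (T j)) : |E| ≤ gg := by
  by_contra hcon
  push Not at hcon
  apply hE
  refine ContinuousLinearMap.isUnit_of_forall_le_norm_inner_map _
    (c := ⟨|E| - gg, by linarith⟩) (by change (0:ℝ) < |E| - gg; linarith) fun x => ?_
  have h1 : (algebraMap ℂ (HH →L[ℂ] HH) (E : ℂ) - T j) x = (E : ℂ) • x - T j x := by
    rw [sub_apply, Algebra.algebraMap_eq_smul_one]; rfl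
  rw [h1, inner_sub_left, inner_smul_left]
  have h2 : (⟪x, x⟫_ℂ : ℂ) = ((‖x‖ ^ 2 : ℝ) : ℂ) := by
    rw [inner_self_eq_norm_sq_to_K]; norm_cast
  have hsym : ⟪T j x, x⟫_ℂ = ⟪x, T j x⟫_ℂ :=
    (ContinuousLinearMap.isSelfAdjoint_iff_isSymmetric.1 (T_sa j)) x x
  refine le_trans ?_ (Complex.abs_re_le_norm _)
  rw [h2, hsym, Complex.conj_ofReal, ← Complex.ofReal_mul, Complex.sub_re, Complex.ofReal_re]
  have h4 := form_bound j x
  change ‖x‖ ^ 2 * (|E| - gg) ≤ _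
  have h5 : |E| * ‖x‖ ^ 2 = |E * ‖x‖ ^ 2| := by
    rw [abs_mul, abs_of_nonneg (sq_nonneg ‖x‖)]
  have h6 := abs_sub_abs_le_abs_sub (E * ‖x‖ ^ 2) ((⟪x, T j x⟫_ℂ).re)
  linarith

section approx

variable {E : ℝ} {ξ : Bool → ℂ}

/-- The generator of the approximate eigenvectors. -/
noncomputable def A (ξ : Bool → ℂ) (f : HH) : HH := -(ξ true • V true f + ξ false • V false f)

/-- The levels. -/
noncomputable def u (ξ : Bool → ℂ) : ℕ → HH
  | 0 => del []
  | n + 1 => A ξ (u ξ n)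

/-- The partial sums. -/
noncomputable def ph (ξ : Bool → ℂ) : ℕ → HH
  | 0 => del []
  | n + 1 => del [] + A ξ (ph ξ n)

theorem A_nil (f : HH) : A ξ f [] = 0 := by
  unfold A
  rw [lp.coeFn_neg, Pi.neg_apply, lp.coeFn_add, Pi.add_apply, lp.coeFn_smul, Pi.smul_apply,
    lp.coeFn_smul, Pi.smul_apply, V_apply_nil, V_apply_nil]
  simp

theorem S_A (b : Bool) (f : HH) : S b (A ξ f) = -(ξ b • f) := by
  unfold A
  rw [map_neg, map_add, map_smul, map_smul, S_V, S_V]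
  cases b <;> simp

theorem norm_V (b : Bool) (f : HH) : ‖V b f‖ = ‖f‖ := by
  have h := norm_decomp (V b f)
  rw [V_apply_nil, S_V, S_V] at h
  have : ‖V b f‖ ^ 2 = ‖f‖ ^ 2 := by
    rw [h]
    cases b <;> simp
  exact (sq_eq_sq₀ (norm_nonneg _) (norm_nonneg _)).1 this

variable (hξ : ‖ξ true‖ ^ 2 + ‖ξ false‖ ^ 2 = 1)
include hξ

theorem norm_A (f : HH) : ‖A ξ f‖ ^ 2 = ‖f‖ ^ 2 := by
  rw [norm_decomp (A ξ f), A_nil, S_A, S_A, norm_neg, norm_neg, norm_smul, norm_smul]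
  have : (‖ξ true‖ ^ 2 + ‖ξ false‖ ^ 2) * ‖f‖ ^ 2 = ‖f‖ ^ 2 := by rw [hξ, one_mul]
  rw [norm_zero]
  linarith

omit hξ in
theorem norm_del : ‖del []‖ = 1 := by
  unfold del
  rw [lp.norm_single (by norm_num)]
  simp

theorem norm_u (n : ℕ) : ‖u ξ n‖ = 1 := by
  induction n with
  | zero => exact norm_del
  | succ n ih =>
    have h := norm_A hξ (u ξ n)
    rw [ih] at h
    exact (sq_eq_sq₀ (norm_nonneg _) zero_le_one).1 h

theorem norm_ph (n : ℕ) : ‖ph ξ n‖ ^ 2 = n + 1 := by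
  induction n with
  | zero => rw [ph, norm_del]; norm_num
  | succ n ih =>
    have h := norm_decomp (ph ξ (n + 1))
    have h1 : ph ξ (n + 1) [] = 1 := by
      rw [ph, lp.coeFn_add, Pi.add_apply, A_nil, del_apply]
      simp
    have h2 : ∀ b, S b (ph ξ (n + 1)) = -(ξ b • ph ξ n) := by
      intro b
      rw [ph, map_add, S_del_nil, S_A, zero_add]
    rw [h, h1, h2, h2, norm_neg, norm_neg, norm_smul, norm_smul]
    have : (‖ξ true‖ ^ 2 + ‖ξ false‖ ^ 2) * ‖ph ξ n‖ ^ 2 = ‖ph ξ n‖ ^ 2 := by rw [hξ, one_mul]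
    rw [norm_one]
    push_cast
    linarith

omit hξ in
theorem A_add (f g : HH) : A ξ (f + g) = A ξ f + A ξ g := by
  unfold A
  simp only [map_add, smul_add]
  abel

omit hξ in
theorem ph_succ (n : ℕ) : ph ξ (n + 1) = ph ξ n + u ξ (n + 1) := by
  induction n with
  | zero => rfl
  | succ n ih =>
    calc ph ξ (n + 2) = del [] + A ξ (ph ξ (n + 1)) := rfl
      _ = del [] + A ξ (ph ξ n + u ξ (n + 1)) := by rw [ih]
      _ = (del [] + A ξ (ph ξ n)) + A ξ (u ξ (n + 1)) := by rw [A_add, ← add_assoc]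
      _ = ph ξ (n + 1) + u ξ (n + 2) := rfl

omit hξ in
theorem D_V (j b : Bool) (f : HH) : D j (V b f) = (wt b : ℂ) • V b f := by
  refine ext' fun x => ?_
  rw [D_apply, lp.coeFn_smul, Pi.smul_apply, smul_eq_mul]
  rcases x with _ | ⟨c, x⟩
  · rw [V_apply_nil]; simp
  · rw [V_apply_cons]
    by_cases h : b = c
    · subst h; rfl
    · simp [h]

omit hξ in
theorem D_del (j : Bool) : D j (del []) = (wt j : ℂ) • del [] := by
  refine ext' fun x => ?_
  rw [D_apply, lp.coeFn_smul, Pi.smul_apply, smul_eq_mul, del_apply]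
  rcases x with _ | ⟨c, x⟩
  · simp [lab]
  · simp

omit hξ in
theorem T_A (j : Bool) (f : HH) : T j (A ξ f) =
    -((ξ true + ξ false) • f) + (V true (A ξ f) + V false (A ξ f)) -
      ((ξ true * wt true) • V true f + (ξ false * wt false) • V false f) := by
  rw [T_apply, S_A, S_A]
  have : D j (A ξ f) = -((ξ true * wt true) • V true f + (ξ false * wt false) • V false f) := by
    conv_lhs => unfold A
    rw [map_neg, map_add, map_smul, map_smul, D_V, D_V, smul_smul, smul_smul]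
  rw [this, add_smul]
  abel

omit hξ in
theorem residual (j : Bool) (hE : ∀ b, ξ b * ((E : ℂ) - wt b + (ξ true + ξ false)) + 1 = 0)
    (n : ℕ) : T j (ph ξ n) - (E : ℂ) • ph ξ n =
      ((wt j : ℂ) - E - (ξ true + ξ false)) • del [] + (V true (u ξ n) + V false (u ξ n)) +
        (ξ true + ξ false) • u ξ n := by
  induction n with
  | zero =>
    rw [ph, u, T_apply, S_del_nil, S_del_nil, D_del]
    module
  | succ n ih =>
    rw [ph_succ, map_add, smul_add]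
    have e1 : T j (ph ξ n) + T j (u ξ (n + 1)) - ((E : ℂ) • ph ξ n + (E : ℂ) • u ξ (n + 1)) =
        (T j (ph ξ n) - (E : ℂ) • ph ξ n) + (T j (u ξ (n + 1)) - (E : ℂ) • u ξ (n + 1)) := by abel
    rw [e1, ih]
    have hu : u ξ (n + 1) = A ξ (u ξ n) := rfl
    rw [hu, T_A]
    have ht := hE true
    have hf := hE false
    have hA : A ξ (u ξ n) = -(ξ true • V true (u ξ n) + ξ false • V false (u ξ n)) := rfl
    have k1 : (ξ true * ((E : ℂ) - wt true)) • V true (u ξ n) =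
        -((1 + ξ true * (ξ true + ξ false)) • V true (u ξ n)) := by
      rw [← neg_smul]
      congr 1
      linear_combination ht
    have k2 : (ξ false * ((E : ℂ) - wt false)) • V false (u ξ n) =
        -((1 + ξ false * (ξ true + ξ false)) • V false (u ξ n)) := by
      rw [← neg_smul]
      congr 1
      linear_combination hf
    generalize V true (A ξ (u ξ n)) + V false (A ξ (u ξ n)) = Q
    rw [hA]
    linear_combination (norm := module) k1 + k2

end approx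

end Q235.SubTree
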