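import Pool.Agent.Q235.SubTreeB

/-!
# A label invariant operator on the binary tree with two labels: conclusion
-/

set_option autoImplicit false

open scoped ENNReal ComplexConjugate InnerProductSpace

namespace Q235.SubTree

theorem mem_spec (j : Bool) {E : ℝ} {ξ : Bool → ℂ} (hξ : ‖ξ true‖ ^ 2 + ‖ξ false‖ ^ 2 = 1)
    (hE : ∀ b, ξ b * ((E : ℂ) - wt b + (ξ true + ξ false)) + 1 = 0) :
    (E : ℂ) ∈ spectrum ℂ (T j) := by
  intro hu
  obtain ⟨U, hU⟩ := hu
  set R : HH →L[ℂ] HH := ↑U⁻¹ with hR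
  obtain ⟨K, hK⟩ : ∃ K : ℝ, K = ‖((wt j : ℂ) - E - (ξ true + ξ false))‖ + (1 + 1) +
    ‖ξ true + ξ false‖ := ⟨_, rfl⟩
  have hK0 : 0 ≤ K := by rw [hK]; positivity
  have key : ∀ n : ℕ, ((n : ℝ) + 1) ≤ (‖R‖ * K) ^ 2 := by
    intro n
    rw [← norm_ph hξ n]
    refine pow_le_pow_left₀ (norm_nonneg _) ?_ 2
    have h1 : R ((algebraMap ℂ (HH →L[ℂ] HH) (E : ℂ) - T j) (ph ξ n)) = ph ξ n := by
      rw [← hU]
      have : R * (U : HH →L[ℂ] HH) = 1 := by rw [hR]; exact Units.inv_mul U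
      calc R ((U : HH →L[ℂ] HH) (ph ξ n)) = (R * (U : HH →L[ℂ] HH)) (ph ξ n) := rfl
        _ = ph ξ n := by rw [this]; rfl
    have h2 : (algebraMap ℂ (HH →L[ℂ] HH) (E : ℂ) - T j) (ph ξ n) =
        -(T j (ph ξ n) - (E : ℂ) • ph ξ n) := by
      rw [sub_apply, Algebra.algebraMap_eq_smul_one, neg_sub]; rfl
    have h3 : ‖(algebraMap ℂ (HH →L[ℂ] HH) (E : ℂ) - T j) (ph ξ n)‖ ≤ K := by
      rw [h2, norm_neg, residual j hE n, hK]
      refine (norm_add_le _ _).trans (add_le_add ((norm_add_le _ _).trans (add_le_add ?_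
        ((norm_add_le _ _).trans (add_le_add ?_ ?_)))) ?_)
      · rw [norm_smul, norm_del, mul_one]
      · rw [norm_V, norm_u hξ]
      · rw [norm_V, norm_u hξ]
      · rw [norm_smul, norm_u hξ, mul_one]
    calc ‖ph ξ n‖ = ‖R ((algebraMap ℂ (HH →L[ℂ] HH) (E : ℂ) - T j) (ph ξ n))‖ := by rw [h1]
      _ ≤ ‖R‖ * ‖(algebraMap ℂ (HH →L[ℂ] HH) (E : ℂ) - T j) (ph ξ n)‖ := R.le_opNorm _
      _ ≤ ‖R‖ * K := mul_le_mul_of_nonneg_left h3 (norm_nonneg _)
  obtain ⟨n, hn⟩ := exists_nat_gt ((‖R‖ * K) ^ 2)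
  have := key n
  linarith

/-- The set `Σ₁` for the two labels. -/
def Sig : Set ℝ := {E | ∃ ξ : Bool → ℂ, (∀ b, 0 < (ξ b).im) ∧
  ∀ b, ξ b * ((E : ℂ) - wt b + (ξ true + ξ false)) + 1 = 0}

theorem norm_of_mem {E : ℝ} {ξ : Bool → ℂ} (hp : ∀ b, 0 < (ξ b).im)
    (hE : ∀ b, ξ b * ((E : ℂ) - wt b + (ξ true + ξ false)) + 1 = 0) :
    ‖ξ true‖ ^ 2 + ‖ξ false‖ ^ 2 = 1 := by
  have h : ∀ b, (ξ b).im = ‖ξ b‖ ^ 2 * ((ξ true).im + (ξ false).im) := by
    intro b
    have h1 : (starRingEnd ℂ) (ξ b) * (ξ b * ((E : ℂ) - wt b + (ξ true + ξ false)) + 1) = 0 := by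
      rw [hE b, mul_zero]
    have h2 : (starRingEnd ℂ) (ξ b) * (ξ b * ((E : ℂ) - wt b + (ξ true + ξ false)) + 1) =
        ((‖ξ b‖ ^ 2 : ℝ) : ℂ) * ((E : ℂ) - wt b + (ξ true + ξ false)) + (starRingEnd ℂ) (ξ b) := by
      have : (starRingEnd ℂ) (ξ b) * ξ b = ((‖ξ b‖ ^ 2 : ℝ) : ℂ) := by
        rw [← Complex.normSq_eq_conj_mul_self, Complex.normSq_eq_norm_sq]
      rw [mul_add, ← mul_assoc, this, mul_one]
    rw [h2] at h1
    have h3 := congrArg Complex.im h1
    rw [Complex.add_im, Complex.im_ofReal_mul, Complex.conj_im, Complex.add_im, Complex.sub_im,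
      Complex.ofReal_im, Complex.ofReal_im, Complex.add_im, Complex.zero_im] at h3
    linarith
  have h1 := h true
  have h2 := h false
  have hs : 0 < (ξ true).im + (ξ false).im := add_pos (hp _) (hp _)
  have h3 : (‖ξ true‖ ^ 2 + ‖ξ false‖ ^ 2) * ((ξ true).im + (ξ false).im) =
      1 * ((ξ true).im + (ξ false).im) := by linarith
  exact mul_right_cancel₀ hs.ne' h3

theorem Sig_subset (j : Bool) : Sig ⊆ {E : ℝ | (E : ℂ) ∈ spectrum ℂ (T j)} := by
  rintro E ⟨ξ, hp, hE⟩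
  exact mem_spec j (norm_of_mem hp hE) hE

theorem Sig_eq : Sig = {E : ℝ | E ≠ 0 ∧ E ^ 2 < gg ^ 2} := by
  rw [gg_sq]
  have q2 : Real.sqrt 2 ^ 2 = 2 := Real.sq_sqrt (by norm_num)
  have q2c : ((Real.sqrt 2 : ℝ) : ℂ) ^ 2 = 2 := by exact_mod_cast congrArg (fun t : ℝ => (t : ℂ)) q2
  have wt1 : ((wt true : ℝ) : ℂ) = ((Real.sqrt 2 : ℝ) : ℂ) := rfl
  have wt2 : ((wt false : ℝ) : ℂ) = -((Real.sqrt 2 : ℝ) : ℂ) := by
    have : wt false = -Real.sqrt 2 := rfl
    rw [this]; push_cast; rfl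
  ext E
  constructor
  · rintro ⟨ξ, hp, hE⟩
    obtain ⟨w, hw⟩ : ∃ w : ℂ, w = (E : ℂ) + (ξ true + ξ false) := ⟨_, rfl⟩
    have hwim : 0 < w.im := by
      rw [hw]; simp; linarith [hp true, hp false]
    have h1 := hE true
    have h2 := hE false
    rw [wt1] at h1
    rw [wt2] at h2
    -- the cubic equation
    have hc : w ^ 3 - E * w ^ 2 + 2 * E = 0 := by
      have a1 : ξ true * (w - (Real.sqrt 2 : ℝ)) = -1 := by rw [hw]; linear_combination h1
      have a2 : ξ false * (w + (Real.sqrt 2 : ℝ)) = -1 := by rw [hw]; linear_combination h2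
      have a3 : (w - E) * ((w - (Real.sqrt 2 : ℝ)) * (w + (Real.sqrt 2 : ℝ))) = -2 * w := by
        have : w - E = ξ true + ξ false := by rw [hw]; ring
        rw [this]
        linear_combination (w + (Real.sqrt 2 : ℝ)) * a1 + (w - (Real.sqrt 2 : ℝ)) * a2
      linear_combination a3 + (w - E) * q2c
    obtain ⟨a, ha⟩ : ∃ a : ℝ, a = w.re := ⟨_, rfl⟩
    obtain ⟨b, hb⟩ : ∃ b : ℝ, b = w.im := ⟨_, rfl⟩
    rw [← hb] at hwim
    have hwab : w = (a : ℂ) + (b : ℂ) * Complex.I := by rw [ha, hb]; exact (Complex.re_add_im w).symm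
    rw [hwab] at hc
    have hI : Complex.I ^ 2 = -1 := Complex.I_sq
    have hc2 : ((a ^ 3 - 3 * a * b ^ 2 - E * (a ^ 2 - b ^ 2) + 2 * E : ℝ) : ℂ) +
        ((3 * a ^ 2 * b - b ^ 3 - 2 * E * a * b : ℝ) : ℂ) * Complex.I = 0 := by
      push_cast
      linear_combination hc - (3 * (a : ℂ) * b ^ 2 + b ^ 3 * Complex.I - E * b ^ 2) * hI
    have hre := congrArg Complex.re hc2
    have him := congrArg Complex.im hc2
    simp only [Complex.add_re, Complex.ofReal_re, Complex.re_ofReal_mul, Complex.I_re, mul_zero,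
      add_zero, Complex.zero_re, Complex.add_im, Complex.ofReal_im, Complex.im_ofReal_mul,
      Complex.I_im, mul_one, zero_add, Complex.zero_im] at hre him
    have him2 : b ^ 2 = 3 * a ^ 2 - 2 * E * a := by
      have : b * (3 * a ^ 2 - b ^ 2 - 2 * E * a) = 0 := by linear_combination him
      rcases mul_eq_zero.1 this with h | h
      · linarith
      · linarith
    have hre2 : a * (2 * a - E) ^ 2 = E := by
      rw [him2] at hre
      linear_combination (-1 / 2) * hre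
    have hb2 : 0 < a * (3 * a - 2 * E) := by nlinarith
    have hE0 : E ≠ 0 := by
      rintro rfl
      have : a = 0 := by
        have h : a ^ 3 = 0 := by linear_combination (1 / 4) * hre2
        exact pow_eq_zero_iff (by norm_num) |>.1 h
      rw [this] at hb2
      simp at hb2
    refine ⟨hE0, ?_⟩
    rcases lt_or_gt_of_ne hE0 with h | h
    · -- E < 0
      have ha0 : a < 0 := by
        by_contra hcon
        push Not at hcon
        nlinarith [sq_nonneg (2 * a - E), mul_nonneg hcon (sq_nonneg (2 * a - E))]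
      have h3 : 3 * a - 2 * E < 0 := by
        by_contra hcon
        push Not at hcon
        nlinarith
      have h4 : 2 * a - E < E / 3 := by linarith
      have h5 : (E / 3) ^ 2 < (2 * a - E) ^ 2 := by nlinarith
      have h6 : E ^ 2 / 9 * (2 * E / 3) > E := by
        have : a * (2 * a - E) ^ 2 < a * (E / 3) ^ 2 := mul_lt_mul_of_neg_left h5 ha0
        nlinarith [sq_nonneg E]
      nlinarith
    · have ha0 : 0 < a := by
        by_contra hcon
        push Not at hcon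
        nlinarith [sq_nonneg (2 * a - E), mul_nonneg (neg_nonneg.2 hcon) (sq_nonneg (2 * a - E))]
      have h3 : 0 < 3 * a - 2 * E := by
        by_contra hcon
        push Not at hcon
        nlinarith
      have h4 : E / 3 < 2 * a - E := by linarith
      have h5 : (E / 3) ^ 2 < (2 * a - E) ^ 2 := by nlinarith
      have h6 : E ^ 2 / 9 * (2 * E / 3) < E := by
        have : a * (E / 3) ^ 2 < a * (2 * a - E) ^ 2 := mul_lt_mul_of_pos_left h5 ha0
        nlinarith [sq_nonneg E]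
      nlinarith
  · rintro ⟨hE0, hE2⟩
    -- the real root
    obtain ⟨r, hr1, hr⟩ : ∃ r : ℝ, r ∈ Set.Icc (-Real.sqrt (3 / 2)) (Real.sqrt (3 / 2)) ∧
        r ^ 3 - E * r ^ 2 + 2 * E = 0 := by
      have q : Real.sqrt (3 / 2) ^ 2 = 3 / 2 := Real.sq_sqrt (by norm_num)
      have hs : 0 < Real.sqrt (3 / 2) := Real.sqrt_pos.2 (by norm_num)
      have hEa : |E| < 3 * Real.sqrt (3 / 2) := by
        refine abs_lt_of_sq_lt_sq ?_ (by positivity)
        rw [mul_pow, q]; linarith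
      have hcont : ContinuousOn (fun r : ℝ => r ^ 3 - E * r ^ 2 + 2 * E)
          (Set.Icc (-Real.sqrt (3 / 2)) (Real.sqrt (3 / 2))) := by fun_prop
      have hiv := intermediate_value_Icc (by linarith) hcont
      have h0 : (0 : ℝ) ∈ Set.Icc ((fun r : ℝ => r ^ 3 - E * r ^ 2 + 2 * E) (-Real.sqrt (3 / 2)))
          ((fun r : ℝ => r ^ 3 - E * r ^ 2 + 2 * E) (Real.sqrt (3 / 2))) := by
        have h3 : Real.sqrt (3 / 2) ^ 3 = 3 / 2 * Real.sqrt (3 / 2) := by
          rw [pow_succ, q]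
        have := abs_lt.1 hEa
        constructor
        · have : (-Real.sqrt (3 / 2)) ^ 3 - E * (-Real.sqrt (3 / 2)) ^ 2 + 2 * E =
            -(Real.sqrt (3 / 2) ^ 3) - E * Real.sqrt (3 / 2) ^ 2 + 2 * E := by ring
          simp only
          rw [this, h3, q]
          linarith
        · simp only
          rw [h3, q]
          linarith
      obtain ⟨r, hr1, hr2⟩ := hiv h0
      exact ⟨r, hr1, hr2⟩
    have hr0 : r ≠ 0 := by
      rintro rfl
      apply hE0
      linarith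
    have hrsq : r ^ 2 ≤ 3 / 2 := by
      have := abs_le.2 ⟨hr1.1, hr1.2⟩
      rw [← sq_abs]
      calc |r| ^ 2 ≤ Real.sqrt (3 / 2) ^ 2 := pow_le_pow_left₀ (abs_nonneg _) this 2
        _ = 3 / 2 := Real.sq_sqrt (by norm_num)
    have hr2 : r ^ 2 - 2 ≠ 0 := by intro h; linarith
    have hEr : E = r ^ 3 / (r ^ 2 - 2) := by
      field_simp
      linarith
    have hrlt : r ^ 2 < 3 / 2 := by
      rcases lt_or_eq_of_le hrsq with h | h
      · exact h
      · exfalso
        have h1 : E ^ 2 = 27 / 2 := by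
          rw [hEr, h, div_pow]
          have : (r ^ 3) ^ 2 = (3 / 2) ^ 3 := by rw [← h]; ring
          rw [this]
          norm_num
        linarith
    -- the nonreal roots
    obtain ⟨a, ha⟩ : ∃ a : ℝ, a = (E - r) / 2 := ⟨_, rfl⟩
    have hbb : 0 < -2 * E / r - a ^ 2 := by
      have e : -2 * E / r - a ^ 2 = r ^ 2 * (3 - 2 * r ^ 2) / (r ^ 2 - 2) ^ 2 := by
        rw [ha, hEr]
        field_simp
        ring
      rw [e]
      have : 0 < 3 - 2 * r ^ 2 := by linarith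
      positivity
    obtain ⟨b, hb⟩ : ∃ b : ℝ, b = Real.sqrt (-2 * E / r - a ^ 2) := ⟨_, rfl⟩
    have hb0 : 0 < b := by rw [hb]; exact Real.sqrt_pos.2 hbb
    have hb2 : b ^ 2 = -2 * E / r - a ^ 2 := by rw [hb]; exact Real.sq_sqrt hbb.le
    obtain ⟨w, hw⟩ : ∃ w : ℂ, w = (a : ℂ) + (b : ℂ) * Complex.I := ⟨_, rfl⟩
    have hwim : w.im = b := by rw [hw]; simp
    have hI : Complex.I ^ 2 = -1 := Complex.I_sq
    have hquad : w ^ 2 - ((E - r : ℝ) : ℂ) * w + ((-2 * E / r : ℝ) : ℂ) = 0 := by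
      have h1 : ((b ^ 2 : ℝ) : ℂ) = ((-2 * E / r - a ^ 2 : ℝ) : ℂ) := by rw [hb2]
      have h2 : ((E - r : ℝ) : ℂ) = 2 * a := by rw [ha]; push_cast; ring
      rw [h2, hw]
      have h3 : ((-2 * E / r : ℝ) : ℂ) = (b : ℂ) ^ 2 + (a : ℂ) ^ 2 := by
        push_cast at h1 ⊢
        linear_combination -h1
      rw [h3]
      linear_combination (b : ℂ) ^ 2 * hI
    have hcub : w ^ 3 - E * w ^ 2 + 2 * E = 0 := by
      have h1 : (r : ℂ) ≠ 0 := by exact_mod_cast hr0
      have h2 : r * (E - r) + (-(2 * E) / r) * 1 = 0 := by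
        rw [hEr]
        field_simp
        ring
      have h3 : (r : ℂ) * ((E - r : ℝ) : ℂ) + ((-2 * E / r : ℝ) : ℂ) = 0 := by
        rw [← Complex.ofReal_mul, ← Complex.ofReal_add]
        rw [show r * (E - r) + -2 * E / r = 0 by linarith [h2, (by ring : (-(2 * E) / r) * 1 = -2 * E / r)]]
        simp
      have h4 : (r : ℂ) * ((-2 * E / r : ℝ) : ℂ) = -2 * E := by
        rw [← Complex.ofReal_mul]
        rw [show r * (-2 * E / r) = -2 * E by field_simp]
        push_cast; ring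
      have h5 : (w - r) * (w ^ 2 - ((E - r : ℝ) : ℂ) * w + ((-2 * E / r : ℝ) : ℂ)) = 0 := by
        rw [hquad, mul_zero]
      have h6 : ((E - r : ℝ) : ℂ) = (E : ℂ) - r := by push_cast; ring
      rw [h6] at h3 h5
      linear_combination h5 - w * h3 + h4
    have hp : w + (Real.sqrt 2 : ℝ) ≠ 0 := by
      intro h
      have := congrArg Complex.im h
      simp [hwim] at this
      exact hb0.ne' this
    have hm : w - (Real.sqrt 2 : ℝ) ≠ 0 := by
      intro h
      have := congrArg Complex.im h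
      simp [hwim] at this
      exact hb0.ne' this
    have hsum : (E : ℂ) + (-(w - (Real.sqrt 2 : ℝ))⁻¹ + -(w + (Real.sqrt 2 : ℝ))⁻¹) = w := by
      field_simp
      linear_combination -hcub + (w - E) * q2c
    have him : ∀ c : ℝ, 0 < (-(w - c)⁻¹).im := by
      intro c
      have hne : w - c ≠ 0 := by
        intro h
        have := congrArg Complex.im h
        simp [hwim] at this
        exact hb0.ne' this
      rw [Complex.neg_im, Complex.inv_im, Complex.sub_im, Complex.ofReal_im, hwim, sub_zero]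
      have := Complex.normSq_pos.2 hne
      rw [neg_div, neg_neg]
      positivity
    refine ⟨fun c => if c then -(w - (Real.sqrt 2 : ℝ))⁻¹ else -(w + (Real.sqrt 2 : ℝ))⁻¹, ?_, ?_⟩
    · intro c
      cases c
      · have := him (-Real.sqrt 2)
        simpa using this
      · exact him (Real.sqrt 2)
    · intro c
      cases c
      · simp only [wt2]
        simp only [if_true, Bool.false_eq_true, if_false]
        rw [show (E : ℂ) - -((Real.sqrt 2 : ℝ) : ℂ) + (-(w - (Real.sqrt 2 : ℝ))⁻¹ +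
          -(w + (Real.sqrt 2 : ℝ))⁻¹) = ((E : ℂ) + (-(w - (Real.sqrt 2 : ℝ))⁻¹ +
          -(w + (Real.sqrt 2 : ℝ))⁻¹)) + (Real.sqrt 2 : ℝ) by ring, hsum]
        field_simp
        ring
      · simp only [wt1]
        simp only [if_true, Bool.false_eq_true, if_false]
        rw [show (E : ℂ) - ((Real.sqrt 2 : ℝ) : ℂ) + (-(w - (Real.sqrt 2 : ℝ))⁻¹ +
          -(w + (Real.sqrt 2 : ℝ))⁻¹) = ((E : ℂ) + (-(w - (Real.sqrt 2 : ℝ))⁻¹ +
          -(w + (Real.sqrt 2 : ℝ))⁻¹)) - (Real.sqrt 2 : ℝ) by ring, hsum]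
        field_simp
        ring

end Q235.SubTree
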