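import Pool.Agent.TH173.RT.Mono
import Pool.Agent.TH173.RT.Main

/-!
# Turán systems from three hitting families of sets of cells
-/

set_option autoImplicit false
open Finset Filter Topology

namespace Pool.Agent.Q235.TU

open Pool.Agent.TH173.RT

/-- the cells which meet `X` in at least `j` vertices -/
def heavy {N m : ℕ} (X : Finset (Fin N × Fin m)) (j : ℕ) : Finset (Fin N) :=
  univ.filter fun c => j ≤ (X.filter fun x => x.1 = c).card

/-- **One type of edges.** -/
theorem oneType {N m r h j b : ℕ} (hj : r ≤ h * j) (R : Finset (Finset (Fin N)))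
    (h1 : ∀ D ∈ R, D.card = h)
    (h2 : ∀ B : Finset (Fin N), B.card = b → ∃ D ∈ R, D ⊆ B) :
    ∃ E : Finset (Finset (Fin N × Fin m)), (∀ e ∈ E, e.card = r) ∧
      (∀ X : Finset (Fin N × Fin m), b ≤ (heavy X j).card → ∃ e ∈ E, e ⊆ X) ∧
      E.card ≤ R.card * m ^ r := by
  classical
  have hlt : ∀ i : Fin r, (i : ℕ) / j < h := by
    intro i
    have hi := i.2
    have hj0 : 0 < j := by
      rcases Nat.eq_zero_or_pos j with h0 | h0
      · subst h0
        omega
      · exact h0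
    rw [Nat.div_lt_iff_lt_mul hj0]
    omega
  set cell : (D : {D // D ∈ R}) → Fin r → Fin N := fun D i =>
    (D.1.orderEmbOfFin (h1 D.1 D.2)) ⟨(i : ℕ) / j, hlt i⟩ with hcell
  set E0 : Finset (Finset (Fin N × Fin m)) := R.attach.biUnion fun D =>
    (univ : Finset (Fin r → Fin m)).image fun g => univ.image fun i => (cell D i, g i) with hE0
  refine ⟨E0.filter fun e => e.card = r, ?_, ?_, ?_⟩
  · intro e he
    exact (mem_filter.1 he).2
  · intro X hX
    obtain ⟨B, hB, hBc⟩ := exists_subset_card_eq hX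
    obtain ⟨D, hD, hDB⟩ := h2 B hBc
    have hheavy : ∀ q : Fin h, ∃ φ : Fin j → Fin N × Fin m, Function.Injective φ ∧
        ∀ t, φ t ∈ X ∧ (φ t).1 = D.orderEmbOfFin (h1 D hD) q := by
      intro q
      have hq : D.orderEmbOfFin (h1 D hD) q ∈ heavy X j :=
        hB (hDB (Finset.orderEmbOfFin_mem D (h1 D hD) q))
      have hq2 := (mem_filter.1 hq).2
      obtain ⟨f⟩ : Nonempty (Fin j ↪
          {x // x ∈ X.filter fun x => x.1 = D.orderEmbOfFin (h1 D hD) q}) := by
        apply Function.Embedding.nonempty_of_card_le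
        rw [Fintype.card_fin, Fintype.card_coe]
        exact hq2
      refine ⟨fun t => (f t).1, ?_, ?_⟩
      · intro s t hst
        exact f.injective (Subtype.ext hst)
      · intro t
        have := mem_filter.1 (f t).2
        exact this
    choose φ hφ1 hφ2 using hheavy
    have hjmod : ∀ i : Fin r, (i : ℕ) % j < j := by
      intro i
      have hi := i.2
      apply Nat.mod_lt
      rcases Nat.eq_zero_or_pos j with h0 | h0
      · subst h0
        omega
      · exact h0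
    set ψ : Fin r → Fin N × Fin m := fun i => φ ⟨(i : ℕ) / j, hlt i⟩ ⟨(i : ℕ) % j, hjmod i⟩ with hψ
    have hψ1 : ∀ i, (ψ i).1 = cell ⟨D, hD⟩ i := by
      intro i
      exact (hφ2 _ _).2
    have hψinj : Function.Injective ψ := by
      intro i i' hii
      have e1 : cell ⟨D, hD⟩ i = cell ⟨D, hD⟩ i' := by
        rw [← hψ1, ← hψ1, hii]
      have e2 : (⟨(i : ℕ) / j, hlt i⟩ : Fin h) = ⟨(i' : ℕ) / j, hlt i'⟩ :=
        (D.orderEmbOfFin (h1 D hD)).injective e1
      have e3 : (i : ℕ) / j = (i' : ℕ) / j := by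
        have := congrArg Fin.val e2
        exact this
      have e4 : φ ⟨(i : ℕ) / j, hlt i⟩ ⟨(i : ℕ) % j, hjmod i⟩ =
          φ ⟨(i : ℕ) / j, hlt i⟩ ⟨(i' : ℕ) % j, hjmod i'⟩ := by
        have : φ ⟨(i : ℕ) / j, hlt i⟩ ⟨(i : ℕ) % j, hjmod i⟩ =
          φ ⟨(i' : ℕ) / j, hlt i'⟩ ⟨(i' : ℕ) % j, hjmod i'⟩ := hii
        rw [this, e2]
      have e5 : (i : ℕ) % j = (i' : ℕ) % j := by
        have := congrArg Fin.val (hφ1 _ e4)
        exact this
      apply Fin.ext
      rw [← Nat.div_add_mod (i : ℕ) j, ← Nat.div_add_mod (i' : ℕ) j, e3, e5]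
    refine ⟨univ.image ψ, ?_, ?_⟩
    · refine mem_filter.2 ⟨?_, ?_⟩
      · refine mem_biUnion.2 ⟨⟨D, hD⟩, mem_attach _ _, ?_⟩
        refine mem_image.2 ⟨fun i => (ψ i).2, mem_univ _, ?_⟩
        apply image_congr
        intro i _
        exact Prod.ext (hψ1 i).symm rfl
      · rw [card_image_of_injective _ hψinj, card_univ, Fintype.card_fin]
    · intro x hx
      obtain ⟨i, _, rfl⟩ := mem_image.1 hx
      exact (hφ2 _ _).1
  · refine (card_filter_le _ _).trans ?_
    refine (card_biUnion_le_card_mul _ _ (m ^ r) ?_).trans ?_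
    · intro D _
      refine card_image_le.trans ?_
      rw [card_univ, Fintype.card_fun, Fintype.card_fin, Fintype.card_fin]
    · rw [card_attach]

/-- **Counting.** -/
theorem count {N m r : ℕ} (hr : 3 ≤ r) (X : Finset (Fin N × Fin m)) (h0 : (heavy X r).card = 0) :
    X.card ≤ (heavy X 1).card + (heavy X 2).card + (r - 3) * (heavy X 3).card := by
  classical
  have e1 : X.card = ∑ c : Fin N, (X.filter fun x => x.1 = c).card :=
    card_eq_sum_card_fiberwise (fun x _ => mem_univ x.1)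
  have e2 : ∀ j, (heavy X j).card =
      ∑ c : Fin N, if j ≤ (X.filter fun x => x.1 = c).card then 1 else 0 := by
    intro j
    unfold heavy
    rw [card_filter]
  rw [e1, e2 1, e2 2, e2 3, mul_sum, ← sum_add_distrib, ← sum_add_distrib]
  apply sum_le_sum
  intro c _
  have h3 : ¬ r ≤ (X.filter fun x => x.1 = c).card := by
    intro h
    have : c ∈ heavy X r := mem_filter.2 ⟨mem_univ _, h⟩
    rw [card_eq_zero] at h0
    rw [h0] at this
    simp at this
  generalize (X.filter fun x => x.1 = c).card = s at h3 ⊢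
  by_cases a1 : 1 ≤ s
  · by_cases a2 : 2 ≤ s
    · by_cases a3 : 3 ≤ s
      · simp only [a1, a2, a3, if_true]
        omega
      · simp only [a1, a2, a3, if_true, if_false]
        omega
    · have a3 : ¬ 3 ≤ s := by omega
      simp only [a1, a2, a3, if_true, if_false]
      omega
  · omega

/-- **The composite system.** -/
theorem composite {N m r h2 h3 b1 b2 b3 k : ℕ} (hr : 3 ≤ r)
    (hh2 : r ≤ h2 * 2) (hh3 : r ≤ h3 * 3)
    (hb1 : 1 ≤ b1) (hb2 : 1 ≤ b2) (hb3 : 1 ≤ b3)
    (hk : (b1 - 1) + (b2 - 1) + (r - 3) * (b3 - 1) < k)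
    (R1 R2 R3 : Finset (Finset (Fin N)))
    (u1 : ∀ D ∈ R1, D.card = r) (v1 : ∀ B : Finset (Fin N), B.card = b1 → ∃ D ∈ R1, D ⊆ B)
    (u2 : ∀ D ∈ R2, D.card = h2) (v2 : ∀ B : Finset (Fin N), B.card = b2 → ∃ D ∈ R2, D ⊆ B)
    (u3 : ∀ D ∈ R3, D.card = h3) (v3 : ∀ B : Finset (Fin N), B.card = b3 → ∃ D ∈ R3, D ⊆ B) :
    TT (N * m) k r ≤ (R1.card + R2.card + R3.card + N) * m ^ r := by
  classical
  obtain ⟨E1, a1, c1, d1⟩ := oneType (m := m) (r := r) (h := r) (j := 1) (by omega) R1 u1 v1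
  obtain ⟨E2, a2, c2, d2⟩ := oneType (m := m) (r := r) (h := h2) (j := 2) hh2 R2 u2 v2
  obtain ⟨E3, a3, c3, d3⟩ := oneType (m := m) (r := r) (h := h3) (j := 3) hh3 R3 u3 v3
  obtain ⟨E4, a4, c4, d4⟩ := oneType (m := m) (r := r) (h := 1) (j := r) (b := 1) (by omega)
    ((univ : Finset (Fin N)).image fun c => {c})
    (by
      intro D hD
      obtain ⟨c, _, rfl⟩ := mem_image.1 hD
      simp)
    (by
      intro B hB
      obtain ⟨c, rfl⟩ := card_eq_one.1 hB
      exact ⟨{c}, mem_image.2 ⟨c, mem_univ _, rfl⟩, subset_rfl⟩)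
  have d4' : E4.card ≤ N * m ^ r := by
    refine d4.trans (Nat.mul_le_mul_right _ ?_)
    refine card_image_le.trans ?_
    simp
  have hcov : Cov k r (E1 ∪ E2 ∪ E3 ∪ E4) := by
    constructor
    · intro e he
      rcases mem_union.1 he with he | he
      · rcases mem_union.1 he with he | he
        · rcases mem_union.1 he with he | he
          · exact a1 e he
          · exact a2 e he
        · exact a3 e he
      · exact a4 e he
    · intro X hX
      by_cases q4 : 1 ≤ (heavy X r).card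
      · obtain ⟨e, he, hs⟩ := c4 X q4
        exact ⟨e, mem_union_right _ he, hs⟩
      by_cases q3 : b3 ≤ (heavy X 3).card
      · obtain ⟨e, he, hs⟩ := c3 X q3
        exact ⟨e, mem_union_left _ (mem_union_right _ he), hs⟩
      by_cases q2 : b2 ≤ (heavy X 2).card
      · obtain ⟨e, he, hs⟩ := c2 X q2
        exact ⟨e, mem_union_left _ (mem_union_left _ (mem_union_right _ he)), hs⟩
      by_cases q1 : b1 ≤ (heavy X 1).card
      · obtain ⟨e, he, hs⟩ := c1 X q1
        exact ⟨e, mem_union_left _ (mem_union_left _ (mem_union_left _ he)), hs⟩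
      exfalso
      have hc := count hr X (by omega)
      have h3' : (r - 3) * (heavy X 3).card ≤ (r - 3) * (b3 - 1) :=
        Nat.mul_le_mul_left _ (by omega)
      omega
  have hTT := TT_le' (finProdFinEquiv (m := N) (n := m)) hcov
  refine hTT.trans ?_
  have hu : (E1 ∪ E2 ∪ E3 ∪ E4).card ≤ E1.card + E2.card + E3.card + E4.card := by
    refine (card_union_le _ _).trans ?_
    refine Nat.add_le_add_right ?_ _
    refine (card_union_le _ _).trans ?_
    exact Nat.add_le_add_right (card_union_le _ _) _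
  calc _ ≤ E1.card + E2.card + E3.card + E4.card := hu
    _ ≤ R1.card * m ^ r + R2.card * m ^ r + R3.card * m ^ r + N * m ^ r := by omega
    _ = _ := by ring

/-- **The density bound.** -/
theorem dens_le {N r h2 h3 b1 b2 b3 k : ℕ} (hr : 3 ≤ r) (hN : r ≤ N)
    (hh2 : r ≤ h2 * 2) (hh3 : r ≤ h3 * 3)
    (hb1 : 1 ≤ b1) (hb2 : 1 ≤ b2) (hb3 : 1 ≤ b3)
    (hk : (b1 - 1) + (b2 - 1) + (r - 3) * (b3 - 1) < k)
    (R1 R2 R3 : Finset (Finset (Fin N)))
    (u1 : ∀ D ∈ R1, D.card = r) (v1 : ∀ B : Finset (Fin N), B.card = b1 → ∃ D ∈ R1, D ⊆ B)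
    (u2 : ∀ D ∈ R2, D.card = h2) (v2 : ∀ B : Finset (Fin N), B.card = b2 → ∃ D ∈ R2, D ⊆ B)
    (u3 : ∀ D ∈ R3, D.card = h3) (v3 : ∀ B : Finset (Fin N), B.card = b3 → ∃ D ∈ R3, D ⊆ B)
    {t : ℝ} (ht : Dens k r t) :
    t ≤ ((R1.card : ℝ) + R2.card + R3.card + N) / (N.choose r : ℝ) := by
  have hN0 : 0 < N := by omega
  have hlim : Tendsto (fun m : ℕ => (TT (N * m) k r : ℝ) / ((N * m).choose r : ℝ)) atTop (𝓝 t) := by
    have h1 : Tendsto (fun m : ℕ => N * m) atTop atTop :=
      tendsto_id.const_mul_atTop' hN0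
    exact ht.comp h1
  refine le_of_tendsto hlim ?_
  filter_upwards [eventually_ge_atTop 1] with m hm
  have hc := composite (m := m) hr hh2 hh3 hb1 hb2 hb3 hk R1 R2 R3 u1 v1 u2 v2 u3 v3
  have hb := choose_blow N m r (by omega) hN
  have hNr : (0 : ℝ) < (N.choose r : ℝ) := by exact_mod_cast Nat.choose_pos hN
  have hmr : (0 : ℝ) < (m : ℝ) ^ r := by positivity
  have hb' : (m : ℝ) ^ r * (N.choose r : ℝ) ≤ ((N * m).choose r : ℝ) := by exact_mod_cast hb
  have hc' : (TT (N * m) k r : ℝ) ≤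
      ((R1.card : ℝ) + R2.card + R3.card + N) * (m : ℝ) ^ r := by exact_mod_cast hc
  have hpos : (0 : ℝ) < ((N * m).choose r : ℝ) := lt_of_lt_of_le (by positivity) hb'
  rw [div_le_div_iff₀ hpos hNr]
  calc (TT (N * m) k r : ℝ) * (N.choose r : ℝ) ≤
        (((R1.card : ℝ) + R2.card + R3.card + N) * (m : ℝ) ^ r) * (N.choose r : ℝ) :=
        mul_le_mul_of_nonneg_right hc' hNr.le
    _ = ((R1.card : ℝ) + R2.card + R3.card + N) * ((m : ℝ) ^ r * (N.choose r : ℝ)) := by ring
    _ ≤ _ := mul_le_mul_of_nonneg_left hb' (by positivity)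

end Pool.Agent.Q235.TU
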