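import Pool.Agent.Q235.TU1

/-!
# The rescaled Turán density is at most `ln r + ln ln r + 16`: the costs
-/

set_option autoImplicit false
open Finset Filter Topology

namespace Pool.Agent.Q235.TU

open Pool.Agent.TH173.RT

theorem choose_shift (x y h : ℕ) : x.choose y ≤ (x + h).choose (y + h) := by
  induction h with
  | zero => exact le_rfl
  | succ h ih =>
    refine ih.trans ?_
    rw [← add_assoc, ← add_assoc, Nat.choose_succ_succ]
    exact Nat.le_add_right _ _

theorem log_choose_le {N b : ℕ} (hb : 1 ≤ b) (hbN : b ≤ N) :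
    Real.log (N.choose b : ℝ) ≤ b * Real.log (Real.exp 1 * N / b) := by
  have hb0 : (0 : ℝ) < (b : ℝ) := by exact_mod_cast hb
  have hN0 : (0 : ℝ) < (N : ℝ) := by exact_mod_cast (show 0 < N by omega)
  have h1 : (N.choose b : ℝ) ≤ (N : ℝ) ^ b / (b.factorial : ℝ) := Nat.choose_le_pow_div b N
  have h2 : (b : ℝ) ^ b / (b.factorial : ℝ) ≤ Real.exp b := Real.pow_div_factorial_le_exp _ hb0.le b
  have h3 : (N : ℝ) ^ b / (b.factorial : ℝ) ≤ (Real.exp 1 * N / b) ^ b := by
    have e1 : (N : ℝ) ^ b / (b.factorial : ℝ) = ((N : ℝ) / b) ^ b * ((b : ℝ) ^ b / (b.factorial : ℝ)) := by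
      rw [div_pow]
      field_simp
    have e2 : (Real.exp 1 * N / b) ^ b = ((N : ℝ) / b) ^ b * Real.exp b := by
      rw [mul_div_assoc, mul_pow, ← Real.exp_nat_mul, mul_one, mul_comm]
    rw [e1, e2]
    exact mul_le_mul_of_nonneg_left h2 (by positivity)
  have hc : (0 : ℝ) < (N.choose b : ℝ) := by exact_mod_cast Nat.choose_pos hbN
  calc Real.log (N.choose b : ℝ) ≤ Real.log ((Real.exp 1 * N / b) ^ b) :=
        Real.log_le_log hc (h1.trans h3)
    _ = _ := by rw [Real.log_pow]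

/-- the cost of one hitting family, as a function of `x = 1 / a` -/
noncomputable def G (A L b0 : ℝ) (h r : ℕ) (x : ℝ) : ℝ :=
  A ^ (r - 1) / (L * A - r * x) ^ r *
    ((L * A / (b0 - r * x)) ^ h * (x + (b0 + x) * Real.log (Real.exp 1 * (L * A) / b0)) + x)

theorem G_tendsto {A L b0 : ℝ} (hA : 0 < A) (hL : 0 < L) (hb : 0 < b0) (h r : ℕ) :
    Tendsto (fun a : ℕ => G A L b0 h r (1 / (a : ℝ))) atTop
      (𝓝 (A ^ (r - 1) / (L * A) ^ r *
        ((L * A / b0) ^ h * (b0 * Real.log (Real.exp 1 * (L * A) / b0))))) := by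
  have h0 : Tendsto (fun a : ℕ => 1 / (a : ℝ)) atTop (𝓝 0) := tendsto_one_div_atTop_nhds_zero_nat
  have h1 : Tendsto (fun a : ℕ => L * A - (r : ℝ) * (1 / (a : ℝ))) atTop (𝓝 (L * A)) := by
    have := (tendsto_const_nhds (x := L * A)).sub (h0.const_mul (r : ℝ))
    simpa using this
  have h2 : Tendsto (fun a : ℕ => b0 - (r : ℝ) * (1 / (a : ℝ))) atTop (𝓝 b0) := by
    have := (tendsto_const_nhds (x := b0)).sub (h0.const_mul (r : ℝ))
    simpa using this
  have h3 : Tendsto (fun a : ℕ => A ^ (r - 1) / (L * A - (r : ℝ) * (1 / (a : ℝ))) ^ r) atTop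
      (𝓝 (A ^ (r - 1) / (L * A) ^ r)) :=
    tendsto_const_nhds.div (h1.pow r) (by positivity)
  have h4 : Tendsto (fun a : ℕ => (L * A / (b0 - (r : ℝ) * (1 / (a : ℝ)))) ^ h) atTop
      (𝓝 ((L * A / b0) ^ h)) :=
    (tendsto_const_nhds.div h2 hb.ne').pow h
  have h5 : Tendsto (fun a : ℕ => (1 / (a : ℝ)) +
      (b0 + 1 / (a : ℝ)) * Real.log (Real.exp 1 * (L * A) / b0)) atTop
      (𝓝 (b0 * Real.log (Real.exp 1 * (L * A) / b0))) := by
    have := h0.add (((tendsto_const_nhds (x := b0)).add h0).mul_const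
      (Real.log (Real.exp 1 * (L * A) / b0)))
    simpa using this
  have h6 := h3.mul ((h4.mul h5).add h0)
  simpa [G] using h6

/-- **The cost of one hitting family.** -/
theorem cost {A L b0 r h a : ℕ} (hA : 1 ≤ A) (hL : 2 ≤ L) (hb0 : 1 ≤ b0) (hbA : b0 ≤ A)
    (hhr : h ≤ r) (hr : 1 ≤ r) (ha : r < a) :
    ∃ R : Finset (Finset (Fin (L * A * a))), (∀ D ∈ R, D.card = h) ∧
      (∀ B : Finset (Fin (L * A * a)), B.card = b0 * a + 1 → ∃ D ∈ R, D ⊆ B) ∧
      ((A : ℝ) * a) ^ (r - 1) / ((L * A * a).descFactorial r : ℝ) * (R.card : ℝ) ≤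
        G A L b0 h r (1 / (a : ℝ)) := by
  have hab : a ≤ b0 * a := Nat.le_mul_of_pos_left a hb0
  have hAa : b0 * a ≤ A * a := Nat.mul_le_mul_right a hbA
  have hLA : 2 * (A * a) ≤ L * A * a := by
    rw [mul_assoc]
    exact Nat.mul_le_mul_right _ hL
  have hle1 : h ≤ b0 * a + 1 := by omega
  have hle2 : b0 * a + 1 ≤ L * A * a := by omega
  obtain ⟨R, hR1, hR2, hR3⟩ := cover hle1 hle2
  refine ⟨R, hR1, hR2, ?_⟩
  -- real parameters
  have a0 : (0 : ℝ) < (a : ℝ) := by exact_mod_cast (show 0 < a by omega)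
  have A0 : (0 : ℝ) < (A : ℝ) := by exact_mod_cast hA
  have L0 : (0 : ℝ) < (L : ℝ) := by exact_mod_cast (show 0 < L by omega)
  have b00 : (0 : ℝ) < (b0 : ℝ) := by exact_mod_cast hb0
  have b01 : (1 : ℝ) ≤ (b0 : ℝ) := by exact_mod_cast hb0
  have ra : (r : ℝ) < (a : ℝ) := by exact_mod_cast ha
  have hbA' : (b0 : ℝ) ≤ (A : ℝ) := by exact_mod_cast hbA
  have hL' : (2 : ℝ) ≤ (L : ℝ) := by exact_mod_cast hL
  have hr' : (1 : ℝ) ≤ (r : ℝ) := by exact_mod_cast hr
  have hrx : (r : ℝ) * (1 / (a : ℝ)) < 1 := by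
    rw [mul_one_div, div_lt_one a0]
    exact ra
  have p1 : (0 : ℝ) < (b0 : ℝ) - r * (1 / (a : ℝ)) := by linarith
  have LA1 : (2 : ℝ) * A ≤ (L : ℝ) * A := by nlinarith
  have p2 : (0 : ℝ) < (L : ℝ) * A - r * (1 / (a : ℝ)) := by nlinarith
  -- the quotient of binomial coefficients
  have q1 : ((L * A * a).choose h : ℝ) / ((b0 * a + 1).choose h : ℝ) ≤
      ((L : ℝ) * A / ((b0 : ℝ) - r * (1 / (a : ℝ)))) ^ h := by
    have e1 : ((L * A * a).descFactorial h : ℝ) =
        (h.factorial : ℝ) * ((L * A * a).choose h : ℝ) := by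
      rw [Nat.descFactorial_eq_factorial_mul_choose]
      push_cast
      ring
    have e2 : ((b0 * a + 1).descFactorial h : ℝ) =
        (h.factorial : ℝ) * ((b0 * a + 1).choose h : ℝ) := by
      rw [Nat.descFactorial_eq_factorial_mul_choose]
      push_cast
      ring
    have hf : (0 : ℝ) < (h.factorial : ℝ) := by exact_mod_cast Nat.factorial_pos h
    have hc : (0 : ℝ) < ((b0 * a + 1).choose h : ℝ) := by exact_mod_cast Nat.choose_pos hle1
    have e3 : ((L * A * a).choose h : ℝ) / ((b0 * a + 1).choose h : ℝ) =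
        ((L * A * a).descFactorial h : ℝ) / ((b0 * a + 1).descFactorial h : ℝ) := by
      rw [e1, e2, mul_div_mul_left _ _ hf.ne']
    have e4 : ((L * A * a).descFactorial h : ℝ) ≤ ((L : ℝ) * A * a) ^ h := by
      exact_mod_cast Nat.descFactorial_le_pow (L * A * a) h
    have e5 : ((b0 : ℝ) * a - r) ^ h ≤ ((b0 * a + 1).descFactorial h : ℝ) := by
      have f1 : (b0 * a + 1 + 1 - h) ^ h ≤ (b0 * a + 1).descFactorial h :=
        Nat.pow_sub_le_descFactorial _ _
      have f2 : (((b0 * a + 1 + 1 - h : ℕ) : ℝ)) ^ h ≤ ((b0 * a + 1).descFactorial h : ℝ) := by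
        exact_mod_cast f1
      refine le_trans ?_ f2
      have f3 : (b0 * a - r) + 0 ≤ b0 * a + 1 + 1 - h := by omega
      have f4 : ((b0 : ℝ) * a - r) ≤ ((b0 * a + 1 + 1 - h : ℕ) : ℝ) := by
        have : ((b0 * a - r : ℕ) : ℝ) ≤ ((b0 * a + 1 + 1 - h : ℕ) : ℝ) := by exact_mod_cast f3
        rw [Nat.cast_sub (by omega)] at this
        push_cast at this
        push_cast
        linarith
      have f5 : 0 ≤ ((b0 : ℝ) * a - r) := by nlinarith
      exact pow_le_pow_left₀ f5 f4 h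
    have f6 : 0 < ((b0 : ℝ) * a - r) := by nlinarith
    rw [e3]
    calc ((L * A * a).descFactorial h : ℝ) / ((b0 * a + 1).descFactorial h : ℝ)
        ≤ ((L : ℝ) * A * a) ^ h / ((b0 : ℝ) * a - r) ^ h := by
          apply div_le_div₀ (by positivity) e4 (by positivity) e5
      _ = ((L : ℝ) * A / ((b0 : ℝ) - r * (1 / (a : ℝ)))) ^ h := by
          rw [← div_pow]
          congr 1
          field_simp
  -- the logarithm
  have q2 : Real.log (((L * A * a - h).choose (b0 * a + 1 - h) : ℕ) : ℝ) ≤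
      ((b0 : ℝ) * a + 1) * Real.log (Real.exp 1 * ((L : ℝ) * A) / b0) := by
    have s1 : (L * A * a - h).choose (b0 * a + 1 - h) ≤ (L * A * a).choose (b0 * a + 1) := by
      have := choose_shift (L * A * a - h) (b0 * a + 1 - h) h
      rwa [Nat.sub_add_cancel (by omega), Nat.sub_add_cancel hle1] at this
    have s2 : (0 : ℝ) < (((L * A * a - h).choose (b0 * a + 1 - h) : ℕ) : ℝ) := by
      exact_mod_cast Nat.choose_pos (by omega)
    have s3 : Real.log (((L * A * a - h).choose (b0 * a + 1 - h) : ℕ) : ℝ) ≤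
        Real.log ((L * A * a).choose (b0 * a + 1) : ℝ) :=
      Real.log_le_log s2 (by exact_mod_cast s1)
    have s4 := log_choose_le (N := L * A * a) (b := b0 * a + 1) (by omega) hle2
    refine s3.trans (s4.trans ?_)
    push_cast
    apply mul_le_mul_of_nonneg_left _ (by positivity)
    apply Real.log_le_log (by positivity)
    rw [div_le_div_iff₀ (by positivity) b00]
    have : Real.exp 1 * ((L : ℝ) * A * a) * b0 ≤ Real.exp 1 * ((L : ℝ) * A) * ((b0 : ℝ) * a + 1) := by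
      have hp : 0 ≤ Real.exp 1 * ((L : ℝ) * A) := by positivity
      nlinarith
    exact this
  have lognn : 0 ≤ Real.log (Real.exp 1 * ((L : ℝ) * A) / b0) := by
    apply Real.log_nonneg
    rw [le_div_iff₀ b00]
    have he : (1 : ℝ) ≤ Real.exp 1 := Real.one_le_exp (by norm_num)
    nlinarith
  -- the number of sets
  have q3 : (R.card : ℝ) ≤ ((L : ℝ) * A / ((b0 : ℝ) - r * (1 / (a : ℝ)))) ^ h *
      (1 + ((b0 : ℝ) * a + 1) * Real.log (Real.exp 1 * ((L : ℝ) * A) / b0)) + 1 := by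
    refine hR3.trans ?_
    have hpos1 : (0 : ℝ) ≤ ((L * A * a).choose h : ℝ) / ((b0 * a + 1).choose h : ℝ) := by positivity
    have hl : (0 : ℝ) ≤ 1 + ((b0 : ℝ) * a + 1) * Real.log (Real.exp 1 * ((L : ℝ) * A) / b0) := by
      positivity
    have := mul_le_mul q1 (add_le_add_right q2 1) (by
      have : (0:ℝ) ≤ Real.log (((L * A * a - h).choose (b0 * a + 1 - h) : ℕ) : ℝ) := by
        apply Real.log_nonneg
        exact_mod_cast Nat.choose_pos (show b0 * a + 1 - h ≤ L * A * a - h by omega)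
      linarith) (by positivity)
    linarith
  -- the denominator
  have q4 : ((L : ℝ) * A * a - r) ^ r ≤ ((L * A * a).descFactorial r : ℝ) := by
    have f1 : (L * A * a + 1 - r) ^ r ≤ (L * A * a).descFactorial r :=
      Nat.pow_sub_le_descFactorial _ _
    have f2 : (((L * A * a + 1 - r : ℕ) : ℝ)) ^ r ≤ ((L * A * a).descFactorial r : ℝ) := by
      exact_mod_cast f1
    refine le_trans ?_ f2
    have f4 : ((L : ℝ) * A * a - r) ≤ ((L * A * a + 1 - r : ℕ) : ℝ) := by
      rw [Nat.cast_sub (by omega)]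
      push_cast
      linarith
    have f5 : 0 ≤ ((L : ℝ) * A * a - r) := by
      have : (r : ℝ) ≤ (L : ℝ) * A * a := by exact_mod_cast (show r ≤ L * A * a by omega)
      linarith
    exact pow_le_pow_left₀ f5 f4 r
  have q5 : (0 : ℝ) < (L : ℝ) * A * a - r := by
    have : (r : ℝ) + 1 ≤ (L : ℝ) * A * a := by exact_mod_cast (show r + 1 ≤ L * A * a by omega)
    linarith
  have q6 : ((A : ℝ) * a) ^ (r - 1) / ((L * A * a).descFactorial r : ℝ) ≤
      (A : ℝ) ^ (r - 1) / ((L : ℝ) * A - r * (1 / (a : ℝ))) ^ r * (1 / (a : ℝ)) := by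
    calc ((A : ℝ) * a) ^ (r - 1) / ((L * A * a).descFactorial r : ℝ)
        ≤ ((A : ℝ) * a) ^ (r - 1) / ((L : ℝ) * A * a - r) ^ r := by
          apply div_le_div_of_nonneg_left (by positivity) (by positivity) q4
      _ = _ := by
          have e1 : (L : ℝ) * A * a - r = a * ((L : ℝ) * A - r * (1 / (a : ℝ))) := by
            field_simp
          obtain ⟨s, rfl⟩ : ∃ s, r = s + 1 := ⟨r - 1, by omega⟩
          rw [e1, mul_pow, mul_pow, Nat.add_sub_cancel, pow_succ (a : ℝ) s]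
          field_simp
  calc ((A : ℝ) * a) ^ (r - 1) / ((L * A * a).descFactorial r : ℝ) * (R.card : ℝ)
      ≤ ((A : ℝ) ^ (r - 1) / ((L : ℝ) * A - r * (1 / (a : ℝ))) ^ r * (1 / (a : ℝ))) *
        (((L : ℝ) * A / ((b0 : ℝ) - r * (1 / (a : ℝ)))) ^ h *
      (1 + ((b0 : ℝ) * a + 1) * Real.log (Real.exp 1 * ((L : ℝ) * A) / b0)) + 1) :=
        mul_le_mul q6 q3 (by positivity) (by positivity)
    _ = G A L b0 h r (1 / (a : ℝ)) := by
        unfold G
        rw [mul_assoc]
        congr 1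
        field_simp

end Pool.Agent.Q235.TU
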