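import Pool.Agent.Q235.TU2

/-!
# The rescaled Turán density is at most `ln r + ln ln r + 14`: the numerical part
-/

set_option autoImplicit false
open Finset Filter Topology

namespace Pool.Agent.Q235.TU

open Pool.Agent.TH173.RT

theorem ratio_le {A L r a : ℕ} (hA : 1 ≤ A) (hL : 2 ≤ L) (hr : 1 ≤ r) (ha : r < a) :
    ((A : ℝ) * a) ^ (r - 1) / ((L * A * a).descFactorial r : ℝ) ≤
      (A : ℝ) ^ (r - 1) / ((L : ℝ) * A - r * (1 / (a : ℝ))) ^ r * (1 / (a : ℝ)) := by
  have hLA : 2 * a ≤ L * A * a := by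
    have h1 : 2 * 1 ≤ L * A := Nat.mul_le_mul hL hA
    exact Nat.mul_le_mul_right a h1
  have a0 : (0 : ℝ) < (a : ℝ) := by exact_mod_cast (show 0 < a by omega)
  have A0 : (0 : ℝ) < (A : ℝ) := by exact_mod_cast hA
  have q4 : ((L : ℝ) * A * a - r) ^ r ≤ ((L * A * a).descFactorial r : ℝ) := by
    have f1 : (L * A * a + 1 - r) ^ r ≤ (L * A * a).descFactorial r :=
      Nat.pow_sub_le_descFactorial _ _
    have f2 : (((L * A * a + 1 - r : ℕ) : ℝ)) ^ r ≤ ((L * A * a).descFactorial r : ℝ) := by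
      exact_mod_cast f1
    refine le_trans ?_ f2
    have f4 : ((L : ℝ) * A * a - r) ≤ ((L * A * a + 1 - r : ℕ) : ℝ) := by
      rw [Nat.cast_sub (by omega)]
      push_cast
      linarith
    have f5 : 0 ≤ ((L : ℝ) * A * a - r) := by
      have : (r : ℝ) ≤ (L : ℝ) * A * a := by exact_mod_cast (show r ≤ L * A * a by omega)
      linarith
    exact pow_le_pow_left₀ f5 f4 r
  have q5 : (0 : ℝ) < (L : ℝ) * A * a - r := by
    have : (r : ℝ) + 1 ≤ (L : ℝ) * A * a := by exact_mod_cast (show r + 1 ≤ L * A * a by omega)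
    linarith
  calc ((A : ℝ) * a) ^ (r - 1) / ((L * A * a).descFactorial r : ℝ)
      ≤ ((A : ℝ) * a) ^ (r - 1) / ((L : ℝ) * A * a - r) ^ r := by
        apply div_le_div_of_nonneg_left (by positivity) (by positivity) q4
    _ = _ := by
        have e1 : (L : ℝ) * A * a - r = a * ((L : ℝ) * A - r * (1 / (a : ℝ))) := by
          field_simp
        obtain ⟨s, rfl⟩ : ∃ s, r = s + 1 := ⟨r - 1, by omega⟩
        rw [e1, mul_pow, mul_pow, Nat.add_sub_cancel, pow_succ (a : ℝ) s]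
        field_simp

/-- the bound before the choice of `d` -/
noncomputable def S (A L : ℝ) (r : ℕ) : ℝ :=
  A ^ (r - 1) / (L * A) ^ r *
        ((L * A / (A - 2 * r)) ^ r * ((A - 2 * r) * Real.log (Real.exp 1 * (L * A) / (A - 2 * r)))) +
  A ^ (r - 1) / (L * A) ^ r *
        ((L * A / r) ^ ((r + 1) / 2) * (r * Real.log (Real.exp 1 * (L * A) / r))) +
  A ^ (r - 1) / (L * A) ^ r *
        ((L * A / 1) ^ ((r + 2) / 3) * (1 * Real.log (Real.exp 1 * (L * A) / 1))) +
  A ^ (r - 1) / (L * A) ^ r * (L * A)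

/-- If `c ≤ (k-1)^(r-1) / r! * t(k,r)` for all `k > r` then `c ≤ S`. -/
theorem le_S {A L r : ℕ} (hr : 3 ≤ r) (hL : 2 ≤ L) (hA : 3 * r ≤ A) {c : ℝ}
    (hc : ∀ k : ℕ, r < k → ∀ t : ℝ, Dens k r t →
      c ≤ ((k : ℝ) - 1) ^ (r - 1) / (r.factorial : ℝ) * t) :
    c ≤ S A L r := by
  have A0 : (0 : ℝ) < (A : ℝ) := by exact_mod_cast (show 0 < A by omega)
  have L0 : (0 : ℝ) < (L : ℝ) := by exact_mod_cast (show 0 < L by omega)
  have r0 : (0 : ℝ) < (r : ℝ) := by exact_mod_cast (show 0 < r by omega)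
  have hcast : ((A - 2 * r : ℕ) : ℝ) = (A : ℝ) - 2 * r := by
    rw [Nat.cast_sub (by omega)]
    push_cast
    ring
  have hb1 : (0 : ℝ) < (A : ℝ) - 2 * r := by
    rw [← hcast]
    exact_mod_cast (show 0 < A - 2 * r by omega)
  have h0 : Tendsto (fun a : ℕ => 1 / (a : ℝ)) atTop (𝓝 0) := tendsto_one_div_atTop_nhds_zero_nat
  have h1 : Tendsto (fun a : ℕ => (L : ℝ) * A - (r : ℝ) * (1 / (a : ℝ))) atTop
      (𝓝 ((L : ℝ) * A)) := by
    have := (tendsto_const_nhds (x := (L : ℝ) * A)).sub (h0.const_mul (r : ℝ))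
    simpa using this
  have h3 : Tendsto (fun a : ℕ => (A : ℝ) ^ (r - 1) / ((L : ℝ) * A - (r : ℝ) * (1 / (a : ℝ))) ^ r *
      ((L : ℝ) * A)) atTop (𝓝 ((A : ℝ) ^ (r - 1) / ((L : ℝ) * A) ^ r * ((L : ℝ) * A))) :=
    (tendsto_const_nhds.div (h1.pow r) (by positivity)).mul_const _
  have hlim := (((G_tendsto A0 L0 hb1 r r).add
    (G_tendsto A0 L0 r0 ((r + 1) / 2) r)).add
    (G_tendsto A0 L0 one_pos ((r + 2) / 3) r)).add h3
  refine ge_of_tendsto hlim ?_
  filter_upwards [eventually_gt_atTop r] with a ha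
  have ha0 : (0 : ℝ) < (a : ℝ) := by exact_mod_cast (show 0 < a by omega)
  have hAa : 3 * r * a ≤ A * a := Nat.mul_le_mul_right a hA
  have hra : r ≤ r * a := Nat.le_mul_of_pos_right r (by omega)
  have h3ra : 3 * r * a = 3 * (r * a) := by ring
  have hLAa : A * a ≤ L * A * a := by
    rw [mul_assoc]
    exact Nat.le_mul_of_pos_left _ (by omega)
  obtain ⟨R1, u1, v1, w1⟩ := cost (A := A) (L := L) (b0 := A - 2 * r) (r := r) (h := r) (a := a)
    (by omega) hL (by omega) (by omega) le_rfl (by omega) ha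
  obtain ⟨R2, u2, v2, w2⟩ := cost (A := A) (L := L) (b0 := r) (r := r) (h := (r + 1) / 2) (a := a)
    (by omega) hL (by omega) (by omega) (by omega) (by omega) ha
  obtain ⟨R3, u3, v3, w3⟩ := cost (A := A) (L := L) (b0 := 1) (r := r) (h := (r + 2) / 3) (a := a)
    (by omega) hL (by omega) (by omega) (by omega) (by omega) ha
  rw [hcast] at w1
  rw [Nat.cast_one] at w3
  have hrk : r ≤ A * a + 1 := by omega
  obtain ⟨t, ht⟩ := exists_dens hrk
  have hd := dens_le (N := L * A * a) (r := r) (h2 := (r + 1) / 2) (h3 := (r + 2) / 3)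
    (b1 := (A - 2 * r) * a + 1) (b2 := r * a + 1) (b3 := 1 * a + 1) (k := A * a + 1)
    hr (by omega) (by omega) (by omega) (by omega) (by omega) (by omega)
    (by
      have e1 : (A - 2 * r) * a = A * a - 2 * (r * a) := by
        rw [Nat.sub_mul]
        congr 1
        ring
      have e2 : (r - 3) * a = r * a - 3 * a := by rw [Nat.sub_mul]
      simp only [Nat.add_sub_cancel, one_mul]
      rw [e1, e2]
      omega) R1 R2 R3 u1 v1 u2 v2 u3 v3 ht
  have hc' := hc (A * a + 1) (by omega) t ht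
  have hk1 : (((A * a + 1 : ℕ) : ℝ) - 1) = (A : ℝ) * a := by
    push_cast
    ring
  rw [hk1] at hc'
  have hf : (0 : ℝ) < (r.factorial : ℝ) := by exact_mod_cast Nat.factorial_pos r
  have hN : r ≤ L * A * a := by omega
  have hch : (0 : ℝ) < ((L * A * a).choose r : ℝ) := by exact_mod_cast Nat.choose_pos hN
  have hdesc : ((L * A * a).descFactorial r : ℝ) =
      (r.factorial : ℝ) * ((L * A * a).choose r : ℝ) := by
    rw [Nat.descFactorial_eq_factorial_mul_choose]
    push_cast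
    ring
  have w4 := ratio_le (A := A) (L := L) (r := r) (a := a) (by omega) hL (by omega) ha
  have hN4 : ((A : ℝ) * a) ^ (r - 1) / ((L * A * a).descFactorial r : ℝ) *
      (((L * A * a : ℕ) : ℝ)) ≤
      (A : ℝ) ^ (r - 1) / ((L : ℝ) * A - r * (1 / (a : ℝ))) ^ r * ((L : ℝ) * A) := by
    have := mul_le_mul_of_nonneg_right w4 (show (0 : ℝ) ≤ ((L * A * a : ℕ) : ℝ) by positivity)
    refine this.trans (le_of_eq ?_)
    push_cast
    field_simp
  calc c ≤ ((A : ℝ) * a) ^ (r - 1) / (r.factorial : ℝ) * t := hc'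
    _ ≤ ((A : ℝ) * a) ^ (r - 1) / (r.factorial : ℝ) *
        (((R1.card : ℝ) + R2.card + R3.card + ((L * A * a : ℕ) : ℝ)) /
          ((L * A * a).choose r : ℝ)) := mul_le_mul_of_nonneg_left hd (by positivity)
    _ = ((A : ℝ) * a) ^ (r - 1) / ((L * A * a).descFactorial r : ℝ) * (R1.card : ℝ) +
        ((A : ℝ) * a) ^ (r - 1) / ((L * A * a).descFactorial r : ℝ) * (R2.card : ℝ) +
        ((A : ℝ) * a) ^ (r - 1) / ((L * A * a).descFactorial r : ℝ) * (R3.card : ℝ) +
        ((A : ℝ) * a) ^ (r - 1) / ((L * A * a).descFactorial r : ℝ) *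
          (((L * A * a : ℕ) : ℝ)) := by
        rw [hdesc]
        field_simp
    _ ≤ _ := by
        exact add_le_add (add_le_add (add_le_add w1 w2) w3) hN4

end Pool.Agent.Q235.TU
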