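import Pool.Agent.Q235.TU3

/-!
# The rescaled Turán density is at most `ln r + ln ln r + 14`: estimates of the four terms
-/

set_option autoImplicit false
open Finset Filter Topology

namespace Pool.Agent.Q235.TU

theorem log8 : Real.log 8 ≤ 2.08 := by
  have h : Real.log 8 = 3 * Real.log 2 := by
    rw [show (8 : ℝ) = 2 ^ 3 by norm_num, Real.log_pow]
    norm_num
  have := Real.log_two_lt_d9
  rw [h]
  linarith

theorem log12 : Real.log 1.2 ≤ 0.2 := by
  have := Real.log_le_sub_one_of_pos (show (0 : ℝ) < 1.2 by norm_num)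
  linarith

/-- the first term -/
theorem term1 {r d : ℕ} (hr : 3 ≤ r) (hd : 2 ≤ d) {A L : ℝ} (hA : A = 2 * (r : ℝ) ^ 2 * d)
    (hL : L = 8 * (r : ℝ) * d) :
    A ^ (r - 1) / (L * A) ^ r *
        ((L * A / (A - 2 * r)) ^ r * ((A - 2 * r) * Real.log (Real.exp 1 * (L * A) / (A - 2 * r)))) ≤
      (1 + 1 / ((d : ℝ) - 1)) * (3.28 + Real.log r + Real.log d) := by
  have r3 : (3 : ℝ) ≤ (r : ℝ) := by exact_mod_cast hr
  have d2 : (2 : ℝ) ≤ (d : ℝ) := by exact_mod_cast hd
  have r0 : (0 : ℝ) < (r : ℝ) := by linarith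
  have d0 : (0 : ℝ) < (d : ℝ) := by linarith
  set q : ℝ := (r : ℝ) * d with hq
  have q6 : 6 ≤ q := by
    rw [hq]
    nlinarith
  have hA' : A = 2 * r * q := by
    rw [hA, hq]
    ring
  have hL' : L = 8 * q := by
    rw [hL, hq]
    ring
  have hX : A - 2 * r = 2 * r * (q - 1) := by
    rw [hA']
    ring
  have A0 : 0 < A := by
    rw [hA']
    positivity
  have L0 : 0 < L := by
    rw [hL']
    positivity
  have q1 : 0 < q - 1 := by linarith
  have X0 : 0 < A - 2 * r := by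
    rw [hX]
    positivity
  obtain ⟨s, rfl⟩ : ∃ s, r = s + 1 := ⟨r - 1, by omega⟩
  simp only [Nat.add_sub_cancel]
  set X : ℝ := A - 2 * ((s + 1 : ℕ) : ℝ) with hXdef
  have e1 : A ^ s / (L * A) ^ (s + 1) * ((L * A / X) ^ (s + 1) *
      (X * Real.log (Real.exp 1 * (L * A) / X))) =
      (A / X) ^ s * Real.log (Real.exp 1 * (L * A) / X) := by
    rw [div_pow (L * A) X, div_pow A X, pow_succ X s]
    field_simp
  rw [e1]
  have e2 : A / X = q / (q - 1) := by
    rw [hX, hA']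
    have : ((s + 1 : ℕ) : ℝ) ≠ 0 := by positivity
    field_simp
  have d1 : 0 < (d : ℝ) - 1 := by linarith
  have e3 : (q / (q - 1)) ^ s ≤ 1 + 1 / ((d : ℝ) - 1) := by
    have b1 : 1 + (s : ℝ) * (-(1 / q)) ≤ (1 + -(1 / q)) ^ s := by
      apply one_add_mul_le_pow
      have : 1 / q ≤ 1 := by
        rw [div_le_one (by linarith)]
        linarith
      linarith
    have b2 : 1 - 1 / (d : ℝ) ≤ 1 + (s : ℝ) * (-(1 / q)) := by
      have : (s : ℝ) * (1 / q) ≤ 1 / (d : ℝ) := by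
        rw [mul_one_div, div_le_div_iff₀ (by linarith) d0, hq]
        push_cast
        nlinarith
      linarith
    have b3 : (q / (q - 1)) ^ s = 1 / (1 + -(1 / q)) ^ s := by
      have hq0 : q ≠ 0 := by linarith
      have b0 : 1 + -(1 / q) = (q - 1) / q := by
        rw [sub_div, div_self hq0]
        ring
      rw [← one_div_pow, b0, one_div_div]
    have b4 : 1 + 1 / ((d : ℝ) - 1) = 1 / (1 - 1 / (d : ℝ)) := by
      field_simp
      ring
    rw [b3, b4]
    apply one_div_le_one_div_of_le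
    · have : 1 / (d : ℝ) ≤ 1 / 2 := one_div_le_one_div_of_le (by norm_num) d2
      linarith
    · linarith
  have e4 : Real.log (Real.exp 1 * (L * A) / X) ≤ 3.28 + Real.log ((s + 1 : ℕ) : ℝ) + Real.log d := by
    have c1 : Real.exp 1 * (L * A) / X = Real.exp 1 * (8 * q * (q / (q - 1))) := by
      rw [← e2, hL']
      ring
    have c2 : q / (q - 1) ≤ 1.2 := by
      rw [div_le_iff₀ q1]
      linarith
    have c3 : 0 < q / (q - 1) := by positivity
    rw [c1, Real.log_mul (Real.exp_pos 1).ne' (by positivity), Real.log_exp,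
      Real.log_mul (by positivity) c3.ne', Real.log_mul (by norm_num) (by positivity)]
    have c4 : Real.log (q / (q - 1)) ≤ 0.2 :=
      (Real.log_le_log c3 c2).trans log12
    have c5 : Real.log q = Real.log ((s + 1 : ℕ) : ℝ) + Real.log d := by
      rw [hq, Real.log_mul (by positivity) (by positivity)]
    rw [c5]
    have := log8
    linarith
  rw [e2]
  have l1 : 0 ≤ Real.log ((s + 1 : ℕ) : ℝ) := Real.log_nonneg (by linarith)
  have l2 : 0 ≤ Real.log (d : ℝ) := Real.log_nonneg (by linarith)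
  have p1 : 0 ≤ (q / (q - 1)) ^ s := by positivity
  calc (q / (q - 1)) ^ s * Real.log (Real.exp 1 * (L * A) / X) ≤
        (q / (q - 1)) ^ s * (3.28 + Real.log ((s + 1 : ℕ) : ℝ) + Real.log d) :=
        mul_le_mul_of_nonneg_left e4 p1
    _ ≤ _ := mul_le_mul_of_nonneg_right e3 (by linarith)

/-- the second term -/
theorem term2 {r : ℕ} (hr : 3 ≤ r) {A L : ℝ} (hL : 8 ≤ L) (hA : A = r * (L / 4)) :
    A ^ (r - 1) / (L * A) ^ r *
        ((L * A / r) ^ ((r + 1) / 2) * (r * Real.log (Real.exp 1 * (L * A) / r))) ≤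
      (1 / 2) ^ (r - 1) * (1 + 2 * Real.log L) := by
  have r0 : (0 : ℝ) < (r : ℝ) := by exact_mod_cast (show 0 < r by omega)
  have L0 : 0 < L := by linarith
  have A0 : 0 < A := by
    rw [hA]
    positivity
  obtain ⟨g, u, hg, hu⟩ : ∃ g u, (r + 1) / 2 = g + 1 ∧ r = 2 * g + u + 1 :=
    ⟨(r + 1) / 2 - 1, r - 2 * ((r + 1) / 2 - 1) - 1, by omega, by omega⟩
  rw [hg]
  have e1 : r - 1 = 2 * g + u := by omega
  rw [e1]
  have hpow : (L * A) ^ r = (L * A) ^ (2 * g + u + 1) := by rw [← hu]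
  rw [hpow]
  have e2 : A ^ (2 * g + u) / (L * A) ^ (2 * g + u + 1) *
      ((L * A / r) ^ (g + 1) * (r * Real.log (Real.exp 1 * (L * A) / r))) =
      (1 / 4) ^ g * (1 / L) ^ u * Real.log (Real.exp 1 * (L * A) / r) := by
    have f1 : L * A / r = L * (L / 4) := by
      rw [hA]
      field_simp
    have f2 : (L * A) ^ (2 * g + u + 1) = L ^ (2 * g + u + 1) * (A ^ (2 * g + u) * A) := by
      rw [mul_pow, pow_succ A]
    have f3 : (L * A / r) ^ (g + 1) = (L * A / r) ^ g * (L * A / r) := pow_succ _ _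
    rw [f3, f2, f1]
    have f4 : (L * (L / 4)) ^ g = L ^ (2 * g) * (1 / 4) ^ g := by
      rw [pow_mul, ← mul_pow]
      congr 1
      ring
    rw [f4]
    have f5 : L ^ (2 * g + u + 1) = L ^ (2 * g) * L ^ u * L := by
      rw [pow_add, pow_add, pow_one]
    rw [f5, one_div_pow L, hA]
    field_simp
  rw [e2]
  have e3 : Real.log (Real.exp 1 * (L * A) / r) ≤ 1 + 2 * Real.log L := by
    have f1 : Real.exp 1 * (L * A) / r = Real.exp 1 * (L ^ 2 / 4) := by
      rw [hA]
      field_simp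
    rw [f1, Real.log_mul (Real.exp_pos 1).ne' (by positivity), Real.log_exp]
    have : Real.log (L ^ 2 / 4) ≤ Real.log (L ^ 2) := by
      apply Real.log_le_log (by positivity)
      have : 0 ≤ L ^ 2 := by positivity
      linarith
    rw [Real.log_pow] at this
    push_cast at this
    linarith
  have e4 : (1 / 4 : ℝ) ^ g * (1 / L) ^ u ≤ (1 / 2) ^ (2 * g + u) := by
    rw [pow_add, pow_mul]
    have : (1 / 2 : ℝ) ^ 2 = 1 / 4 := by norm_num
    rw [this]
    apply mul_le_mul_of_nonneg_left _ (by positivity)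
    apply pow_le_pow_left₀ (by positivity)
    apply one_div_le_one_div_of_le (by norm_num)
    linarith
  have l0 : 0 ≤ Real.log L := Real.log_nonneg (by linarith)
  calc (1 / 4 : ℝ) ^ g * (1 / L) ^ u * Real.log (Real.exp 1 * (L * A) / r) ≤
        (1 / 4 : ℝ) ^ g * (1 / L) ^ u * (1 + 2 * Real.log L) :=
        mul_le_mul_of_nonneg_left e3 (by positivity)
    _ ≤ _ := mul_le_mul_of_nonneg_right e4 (by linarith)

/-- the third term -/
theorem term3 {r : ℕ} (hr : 3 ≤ r) {A L : ℝ} (hL : 8 ≤ L) (hA0 : 0 < A) (hA : 64 * A ≤ L ^ 2) :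
    A ^ (r - 1) / (L * A) ^ r *
        ((L * A / 1) ^ ((r + 2) / 3) * (1 * Real.log (Real.exp 1 * (L * A) / 1))) ≤
      (1 / 4) ^ (r - 1) * (1 + 3 * Real.log L) := by
  have L0 : 0 < L := by linarith
  obtain ⟨g, u, hg, hu⟩ : ∃ g u, (r + 2) / 3 = g + 1 ∧ r = 3 * g + u + 1 :=
    ⟨(r + 2) / 3 - 1, r - 3 * ((r + 2) / 3 - 1) - 1, by omega, by omega⟩
  rw [hg, div_one, div_one, one_mul]
  have e1 : r - 1 = 3 * g + u := by omega
  rw [e1]
  have hpow : (L * A) ^ r = (L * A) ^ (3 * g + u + 1) := by rw [← hu]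
  rw [hpow]
  have e2 : A ^ (3 * g + u) / (L * A) ^ (3 * g + u + 1) *
      ((L * A) ^ (g + 1) * Real.log (Real.exp 1 * (L * A))) =
      (A / L ^ 2) ^ g * (1 / L) ^ u * Real.log (Real.exp 1 * (L * A)) := by
    have f2 : (L * A) ^ (3 * g + u + 1) = L ^ (3 * g + u + 1) * (A ^ (3 * g + u) * A) := by
      rw [mul_pow, pow_succ A]
    have f3 : (L * A) ^ (g + 1) = L ^ g * A ^ g * (L * A) := by
      rw [pow_succ, mul_pow]
    have f5 : L ^ (3 * g + u + 1) = L ^ g * (L ^ 2) ^ g * L ^ u * L := by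
      rw [pow_succ, pow_add, ← pow_mul, ← pow_add]
      congr 3
      ring
    rw [f2, f3, f5, one_div_pow L, div_pow]
    field_simp
  rw [e2]
  have e3 : Real.log (Real.exp 1 * (L * A)) ≤ 1 + 3 * Real.log L := by
    rw [Real.log_mul (Real.exp_pos 1).ne' (by positivity), Real.log_exp]
    have : Real.log (L * A) ≤ Real.log (L ^ 3) := by
      apply Real.log_le_log (by positivity)
      have : A ≤ L ^ 2 := by linarith
      calc L * A ≤ L * L ^ 2 := mul_le_mul_of_nonneg_left this L0.le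
        _ = L ^ 3 := by ring
    rw [Real.log_pow] at this
    push_cast at this
    linarith
  have e4 : (A / L ^ 2) ^ g * (1 / L) ^ u ≤ (1 / 4) ^ (3 * g + u) := by
    rw [pow_add, pow_mul]
    apply mul_le_mul
    · apply pow_le_pow_left₀ (by positivity)
      rw [div_le_iff₀ (by positivity)]
      norm_num
      linarith
    · apply pow_le_pow_left₀ (by positivity)
      apply one_div_le_one_div_of_le (by norm_num)
      linarith
    · positivity
    · positivity
  have l0 : 0 ≤ Real.log L := Real.log_nonneg (by linarith)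
  calc (A / L ^ 2) ^ g * (1 / L) ^ u * Real.log (Real.exp 1 * (L * A)) ≤
        (A / L ^ 2) ^ g * (1 / L) ^ u * (1 + 3 * Real.log L) :=
        mul_le_mul_of_nonneg_left e3 (by positivity)
    _ ≤ _ := mul_le_mul_of_nonneg_right e4 (by linarith)

/-- the fourth term -/
theorem term4 {r : ℕ} (hr : 3 ≤ r) {A L : ℝ} (hL : 8 ≤ L) (hA0 : 0 < A) :
    A ^ (r - 1) / (L * A) ^ r * (L * A) ≤ (1 / 4) ^ (r - 1) := by
  have L0 : 0 < L := by linarith
  obtain ⟨s, rfl⟩ : ∃ s, r = s + 1 := ⟨r - 1, by omega⟩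
  simp only [Nat.add_sub_cancel]
  have e1 : A ^ s / (L * A) ^ (s + 1) * (L * A) = (1 / L) ^ s := by
    rw [pow_succ, mul_pow, one_div_pow]
    field_simp
  rw [e1]
  apply pow_le_pow_left₀ (by positivity)
  apply one_div_le_one_div_of_le (by norm_num)
  linarith

theorem geo1 (s : ℕ) (hs : 2 ≤ s) :
    (1 / 2 : ℝ) ^ s * (5.16 + 4 * s) + (1 / 4 : ℝ) ^ s * (8.24 + 6 * s) ≤ 4.56 := by
  induction s, hs using Nat.le_induction with
  | base => norm_num
  | succ n hn ih =>
    have h2 : (2 : ℝ) ≤ (n : ℝ) := by exact_mod_cast hn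
    have p1 : (0 : ℝ) < (1 / 2 : ℝ) ^ n := by positivity
    have p2 : (0 : ℝ) < (1 / 4 : ℝ) ^ n := by positivity
    rw [pow_succ, pow_succ]
    push_cast
    nlinarith

theorem S_le {r d : ℕ} (hr : 3 ≤ r) (hd : 2 ≤ d) (hdr : d ≤ r) :
    S (2 * (r : ℝ) ^ 2 * d) (8 * (r : ℝ) * d) r ≤
      (1 + 1 / ((d : ℝ) - 1)) * (3.28 + Real.log r + Real.log d) + 4.56 := by
  have r3 : (3 : ℝ) ≤ (r : ℝ) := by exact_mod_cast hr
  have d2 : (2 : ℝ) ≤ (d : ℝ) := by exact_mod_cast hd
  have hdr' : (d : ℝ) ≤ (r : ℝ) := by exact_mod_cast hdr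
  have r0 : (0 : ℝ) < (r : ℝ) := by linarith
  have d0 : (0 : ℝ) < (d : ℝ) := by linarith
  have rd : (6 : ℝ) ≤ (r : ℝ) * d := by nlinarith
  have hL8 : (8 : ℝ) ≤ 8 * (r : ℝ) * d := by nlinarith
  have A0 : (0 : ℝ) < 2 * (r : ℝ) ^ 2 * d := by positivity
  have t1 := term1 hr hd (A := 2 * (r : ℝ) ^ 2 * d) (L := 8 * (r : ℝ) * d) rfl rfl
  have t2 := term2 hr (A := 2 * (r : ℝ) ^ 2 * d) (L := 8 * (r : ℝ) * d) hL8 (by ring)
  have t3 := term3 hr (A := 2 * (r : ℝ) ^ 2 * d) (L := 8 * (r : ℝ) * d) hL8 A0 (by nlinarith [sq_nonneg ((r : ℝ)), mul_pos (pow_pos r0 2) d0])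
  have t4 := term4 hr (A := 2 * (r : ℝ) ^ 2 * d) (L := 8 * (r : ℝ) * d) hL8 A0
  have hlogL : Real.log (8 * (r : ℝ) * d) ≤ 2.08 + 2 * ((r - 1 : ℕ) : ℝ) := by
    rw [Real.log_mul (by positivity) (by positivity), Real.log_mul (by norm_num) (by positivity)]
    have a1 := log8
    have a2 : Real.log r ≤ r - 1 := Real.log_le_sub_one_of_pos r0
    have a3 : Real.log d ≤ Real.log r := Real.log_le_log d0 hdr'
    rw [Nat.cast_sub (by omega)]
    push_cast
    linarith
  have g := geo1 (r - 1) (by omega)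
  have p1 : (0 : ℝ) < (1 / 2 : ℝ) ^ (r - 1) := by positivity
  have p2 : (0 : ℝ) < (1 / 4 : ℝ) ^ (r - 1) := by positivity
  have k2 : (1 / 2 : ℝ) ^ (r - 1) * (1 + 2 * Real.log (8 * (r : ℝ) * d)) ≤
      (1 / 2 : ℝ) ^ (r - 1) * (5.16 + 4 * ((r - 1 : ℕ) : ℝ)) :=
    mul_le_mul_of_nonneg_left (by linarith) p1.le
  have k3 : (1 / 4 : ℝ) ^ (r - 1) * (1 + 3 * Real.log (8 * (r : ℝ) * d)) +
      (1 / 4 : ℝ) ^ (r - 1) ≤
      (1 / 4 : ℝ) ^ (r - 1) * (8.24 + 6 * ((r - 1 : ℕ) : ℝ)) := by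
    have := mul_le_mul_of_nonneg_left (show 2 + 3 * Real.log (8 * (r : ℝ) * d) ≤
      8.24 + 6 * ((r - 1 : ℕ) : ℝ) by linarith) p2.le
    linarith
  unfold S
  linarith

/-- the choice of `d` -/
theorem S_le' {r : ℕ} (hr : 3 ≤ r) : ∃ d : ℕ, 2 ≤ d ∧
    S (2 * (r : ℝ) ^ 2 * d) (8 * (r : ℝ) * d) r ≤ Real.log r + Real.log (Real.log r) + 14 := by
  have r3 : (3 : ℝ) ≤ (r : ℝ) := by exact_mod_cast hr
  have r0 : (0 : ℝ) < (r : ℝ) := by linarith
  set l : ℝ := Real.log r with hl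
  have l1 : 1.0986 ≤ l := by
    have h1 : Real.log 3 ≤ l := Real.log_le_log (by norm_num) r3
    have h2 : (1.0986 : ℝ) ≤ Real.log 3 := by
      have := Real.log_three_gt_d9
      linarith
    linarith
  have l0 : 0 < l := by linarith
  refine ⟨⌈l⌉₊ + 1, ?_, ?_⟩
  · have : 0 < ⌈l⌉₊ := Nat.ceil_pos.2 l0
    omega
  · have c1 : l ≤ (⌈l⌉₊ : ℝ) := Nat.le_ceil l
    have c2 : (⌈l⌉₊ : ℝ) < l + 1 := Nat.ceil_lt_add_one l0.le
    have hdr : ⌈l⌉₊ + 1 ≤ r := by
      have : ⌈l⌉₊ ≤ r - 1 := by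
        apply Nat.ceil_le.2
        rw [Nat.cast_sub (by omega)]
        have := Real.log_le_sub_one_of_pos r0
        push_cast
        linarith
      omega
    have h2 : 2 ≤ ⌈l⌉₊ + 1 := by
      have : 0 < ⌈l⌉₊ := Nat.ceil_pos.2 l0
      omega
    have h := S_le hr h2 hdr
    refine h.trans ?_
    have e1 : (((⌈l⌉₊ + 1 : ℕ) : ℝ) - 1) = (⌈l⌉₊ : ℝ) := by
      push_cast
      ring
    rw [e1]
    set D : ℝ := ((⌈l⌉₊ + 1 : ℕ) : ℝ) with hD
    have D1 : D ≤ l + 2 := by
      rw [hD]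
      push_cast
      linarith
    have D0 : 0 < D := by
      rw [hD]
      positivity
    have D2 : D ≤ l * 2.8206 := by
      nlinarith
    have lD : Real.log D ≤ Real.log l + 1.04 := by
      have a1 : Real.log D ≤ Real.log (l * 2.8206) := Real.log_le_log D0 D2
      rw [Real.log_mul l0.ne' (by norm_num)] at a1
      have a2 : Real.log 2.8206 ≤ 1.04 := by
        have b1 : (2.8206 : ℝ) = Real.exp 1 * (2.8206 / Real.exp 1) := by
          field_simp
        rw [b1, Real.log_mul (Real.exp_pos 1).ne' (by positivity), Real.log_exp]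
        have b2 : Real.log (2.8206 / Real.exp 1) ≤ 2.8206 / Real.exp 1 - 1 :=
          Real.log_le_sub_one_of_pos (by positivity)
        have b3 : 2.8206 / Real.exp 1 ≤ 1.038 := by
          rw [div_le_iff₀ (Real.exp_pos 1)]
          have := Real.exp_one_gt_d9
          linarith
        linarith
      linarith
    have ll : Real.log l ≤ l - 1 := Real.log_le_sub_one_of_pos l0
    have i1 : 1 / (⌈l⌉₊ : ℝ) ≤ 1 / l := one_div_le_one_div_of_le l0 c1
    have Dnn : 0 ≤ Real.log D := Real.log_nonneg (by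
      rw [hD]
      push_cast
      linarith)
    have i2 : (1 + 1 / (⌈l⌉₊ : ℝ)) * (3.28 + l + Real.log D) ≤
        (1 + 1 / l) * (3.28 + l + Real.log D) := by
      apply mul_le_mul_of_nonneg_right (by linarith) (by linarith)
    have i3 : (1 + 1 / l) * (3.28 + l + Real.log D) ≤
        (3.28 + l + Real.log D) + 1 + (3.32 + l) / l := by
      have : (1 + 1 / l) * (3.28 + l + Real.log D) =
          (3.28 + l + Real.log D) + 1 + (3.28 + Real.log D) / l := by
        field_simp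
        ring
      rw [this]
      have : (3.28 + Real.log D) / l ≤ (3.32 + l) / l :=
        div_le_div_of_nonneg_right (by linarith) l0.le
      linarith
    have i4 : (3.32 + l) / l ≤ 4.03 := by
      rw [div_le_iff₀ l0]
      linarith
    linarith

end Pool.Agent.Q235.TU
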